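import Pool.Agent.FRC.CH.Defs

set_option linter.all false

/-!
# Corradi-Hajnal, row BASE: sets with inner degrees at least two, by edge counting only
-/

namespace Pool.Agent.FRC.CH

open Pool.Agent.LCK Pool.Agent.Helper14.LongCyc

universe u

variable {V : Type u} [DecidableEq V] {G : SimpleGraph V}

theorem two_le_dg {T : Finset V} {v x y : V} (hx : x ∈ T) (hy : y ∈ T) (hxy : x ≠ y)
    (h1 : G.Adj v x) (h2 : G.Adj v y) : 2 ≤ dg G T v := by
  classical
  rw [dg_eq_card, ← Finset.card_pair hxy]
  refine Finset.card_le_card fun z hz => ?_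
  rw [Finset.mem_insert, Finset.mem_singleton] at hz
  rcases hz with rfl | rfl
  · exact Finset.mem_filter.2 ⟨hx, h1⟩
  · exact Finset.mem_filter.2 ⟨hy, h2⟩

theorem dg_erase_self (T : Finset V) (v : V) : dg G (T.erase v) v = dg G T v := by
  classical
  rw [dg_eq_card, dg_eq_card]
  congr 1
  ext z
  simp only [Finset.mem_filter, Finset.mem_erase]
  exact ⟨fun h => ⟨h.1.2, h.2⟩, fun h => ⟨⟨h.2.ne', h.1⟩, h.2⟩⟩

theorem dg_le_erase (T : Finset V) (v z : V) : dg G T v ≤ dg G (T.erase z) v + 1 := by
  classical
  rw [dg_eq_card, dg_eq_card]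
  have : (T.filter fun u => G.Adj v u) ⊆
      insert z ((T.erase z).filter fun u => G.Adj v u) := by
    intro u hu
    rw [Finset.mem_filter] at hu
    rw [Finset.mem_insert, Finset.mem_filter, Finset.mem_erase]
    by_cases h : u = z
    · exact Or.inl h
    · exact Or.inr ⟨⟨h, hu.1⟩, hu.2⟩
  exact (Finset.card_le_card this).trans (Finset.card_insert_le _ _)

theorem dg_lt_card {T : Finset V} {v : V} (hv : v ∈ T) : dg G T v + 1 ≤ T.card := by
  rw [← dg_erase_self, ← Finset.card_erase_add_one hv]
  exact Nat.add_le_add_right (dg_le _ _) 1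

theorem exists_of_dg_pos {T : Finset V} {v : V} (h : 0 < dg G T v) : ∃ z ∈ T, G.Adj v z := by
  classical
  rw [dg_eq_card, Finset.card_pos] at h
  obtain ⟨z, hz⟩ := h
  exact ⟨z, (Finset.mem_filter.1 hz).1, (Finset.mem_filter.1 hz).2⟩

theorem CycS.three_le {T : Finset V} (h : CycS G T) : 3 ≤ T.card := by
  obtain ⟨v, hv⟩ := h.1
  have h1 := h.2 v hv
  have h2 := dg_lt_card (G := G) hv
  omega

theorem CycS.of_adj3 {a b c : V} (h1 : G.Adj a b) (h2 : G.Adj b c) (h3 : G.Adj c a) :
    CycS G {a, b, c} := by
  refine ⟨⟨a, by simp⟩, ?_⟩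
  intro v hv
  simp only [Finset.mem_insert, Finset.mem_singleton] at hv
  rcases hv with rfl | rfl | rfl
  · exact two_le_dg (x := b) (y := c) (by simp) (by simp) h2.ne h1 h3.symm
  · exact two_le_dg (x := a) (y := c) (by simp) (by simp) h3.ne' h1.symm h2
  · exact two_le_dg (x := a) (y := b) (by simp) (by simp) h1.ne h3 h2.symm

theorem CycS.of_adj4 {a b c d : V} (h1 : G.Adj a b) (h2 : G.Adj b c) (h3 : G.Adj c d)
    (h4 : G.Adj d a) (hac : a ≠ c) (hbd : b ≠ d) : CycS G {a, b, c, d} := by
  refine ⟨⟨a, by simp⟩, ?_⟩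
  intro v hv
  simp only [Finset.mem_insert, Finset.mem_singleton] at hv
  rcases hv with rfl | rfl | rfl | rfl
  · exact two_le_dg (x := b) (y := d) (by simp) (by simp) hbd h1 h4.symm
  · exact two_le_dg (x := a) (y := c) (by simp) (by simp) hac h1.symm h2
  · exact two_le_dg (x := b) (y := d) (by simp) (by simp) hbd h2.symm h3
  · exact two_le_dg (x := a) (y := c) (by simp) (by simp) hac h4 h3.symm

theorem CycS.adj {T : Finset V} (hT : CycS G T) (h3 : T.card = 3) :
    ∀ u ∈ T, ∀ w ∈ T, u ≠ w → G.Adj u w := by
  classical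
  intro u hu w hw huw
  have h1 := hT.2 u hu
  rw [← dg_erase_self, dg_eq_card] at h1
  have h2 : (T.erase u).card = 2 := by
    have := Finset.card_erase_add_one hu
    omega
  have h4 : ((T.erase u).filter fun z => G.Adj u z) = T.erase u :=
    Finset.eq_of_subset_of_card_le (Finset.filter_subset _ _) (by omega)
  have h5 : w ∈ (T.erase u).filter fun z => G.Adj u z := by
    rw [h4]; exact Finset.mem_erase.2 ⟨huw.symm, hw⟩
  exact (Finset.mem_filter.1 h5).2

theorem eS_insert_self {S : Finset V} {v : V} (hv : v ∉ S) :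
    eS G (insert v S) (insert v S) = eS G S S + 2 * dg G S v := by
  classical
  have hd : Disjoint ({v} : Finset V) S := Finset.disjoint_singleton_left.2 hv
  have e : insert v S = {v} ∪ S := rfl
  rw [e, eS_self_union hd]
  have h1 : eS G ({v} : Finset V) {v} = 0 := by
    unfold eS
    rw [Finset.sum_singleton, dg_eq_card, Finset.card_eq_zero, Finset.filter_eq_empty_iff]
    intro x hx hh
    rw [Finset.mem_singleton] at hx
    exact hh.ne hx.symm
  have h2 : eS G ({v} : Finset V) S = dg G S v := by
    unfold eS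
    rw [Finset.sum_singleton]
  rw [h1, h2]
  omega

theorem eS_erase_self {S : Finset V} {v : V} (hv : v ∈ S) :
    eS G S S = eS G (S.erase v) (S.erase v) + 2 * dg G S v := by
  have h := eS_insert_self (G := G) (Finset.notMem_erase v S)
  rw [Finset.insert_erase hv, dg_erase_self] at h
  exact h

theorem acyc_eS {S : Finset V} (hS : S.Nonempty) (h : ∀ T ⊆ S, ¬ CycS G T) :
    eS G S S + 2 ≤ 2 * S.card := by
  classical
  induction S using Finset.strongInduction with
  | H S ih =>
    have h1 : ∃ v ∈ S, dg G S v ≤ 1 := by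
      by_contra hcon
      push Not at hcon
      exact h S (Finset.Subset.refl _) ⟨hS, fun v hv => hcon v hv⟩
    obtain ⟨v, hv, hd⟩ := h1
    have e := eS_erase_self (G := G) hv
    have hc := Finset.card_erase_add_one hv
    rcases (S.erase v).eq_empty_or_nonempty with h0 | h0
    · have h2 : dg G S v = 0 := by
        rw [← dg_erase_self, h0]
        unfold dg
        rw [Finset.filter_empty, Finset.card_empty]
      rw [h0] at e hc
      have h3 : eS G (∅ : Finset V) ∅ = 0 := by
        unfold eS
        rw [Finset.sum_empty]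
      rw [h3, h2] at e
      rw [Finset.card_empty] at hc
      omega
    · have := ih _ (Finset.erase_ssubset hv) h0 fun T hT =>
        h T (hT.trans (Finset.erase_subset _ _))
      omega

/-- enough edges give a cycle (slightly stronger form) -/
theorem exists_cycS' {S : Finset V} (hS : S.Nonempty) (h : 2 * S.card ≤ eS G S S + 1) :
    ∃ T ⊆ S, CycS G T := by
  by_contra hcon
  push Not at hcon
  have := acyc_eS hS hcon
  omega

/-- enough edges give a cycle -/
theorem exists_cycS {S : Finset V} (hS : S.Nonempty) (h : 2 * S.card ≤ eS G S S) :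
    ∃ T ⊆ S, CycS G T :=
  exists_cycS' hS (by omega)

/-- one more edge: a cycle missing a vertex (slightly stronger form) -/
theorem exists_cycS_lt' {S : Finset V} (h : 2 * S.card + 1 ≤ eS G S S) :
    ∃ T ⊆ S, CycS G T ∧ T.card < S.card := by
  classical
  have hS : S.Nonempty := by
    rw [Finset.nonempty_iff_ne_empty]
    rintro rfl
    unfold eS at h
    rw [Finset.sum_empty] at h
    omega
  by_cases hall : ∀ v ∈ S, 3 ≤ dg G S v
  · obtain ⟨v, hv⟩ := hS
    have h1 := hall v hv
    have h2 := dg_lt_card (G := G) hv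
    have hc := Finset.card_erase_add_one hv
    refine ⟨S.erase v, Finset.erase_subset _ _, ⟨?_, ?_⟩, by omega⟩
    · rw [← Finset.card_pos]; omega
    · intro w hw
      have h3 := hall w (Finset.mem_of_mem_erase hw)
      have h4 := dg_le_erase (G := G) S w v
      omega
  · push Not at hall
    obtain ⟨v, hv, hd⟩ := hall
    have e := eS_erase_self (G := G) hv
    have hc := Finset.card_erase_add_one hv
    have h0 : (S.erase v).Nonempty := by
      rw [← Finset.card_pos]
      by_contra h1
      have h2 : S.erase v = ∅ := Finset.card_eq_zero.1 (by omega)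
      have h3 : dg G S v = 0 := by
        rw [← dg_erase_self, h2]
        unfold dg
        rw [Finset.filter_empty, Finset.card_empty]
      have h4 : eS G (∅ : Finset V) ∅ = 0 := by
        unfold eS
        rw [Finset.sum_empty]
      rw [h2, h4, h3] at e
      omega
    obtain ⟨T, hT, hT'⟩ := exists_cycS' (G := G) h0 (by omega)
    refine ⟨T, hT.trans (Finset.erase_subset _ _), hT', ?_⟩
    have := Finset.card_le_card hT
    omega

/-- one more edge: a cycle missing a vertex -/
theorem exists_cycS_lt {S : Finset V} (h : 2 * S.card + 2 ≤ eS G S S) :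
    ∃ T ⊆ S, CycS G T ∧ T.card < S.card :=
  exists_cycS_lt' (by omega)

/-- a set of this kind of minimal size is `2`-regular -/
theorem dg_in_eq {T : Finset V} (hT : CycS G T)
    (hmin : ∀ T' ⊆ T, CycS G T' → T.card ≤ T'.card) : ∀ v ∈ T, dg G T v = 2 := by
  classical
  intro v hv
  by_contra hne
  have h2 := hT.2 v hv
  have hsum : 2 * T.card + 1 ≤ eS G T T := by
    unfold eS
    rw [← Finset.add_sum_erase _ _ hv]
    have h3 : 2 * (T.erase v).card ≤ ∑ x ∈ T.erase v, dg G T x := by
      have := Finset.card_nsmul_le_sum (T.erase v) (fun x => dg G T x) 2 fun x hx =>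
        hT.2 x (Finset.mem_of_mem_erase hx)
      simpa [mul_comm] using this
    have hc := Finset.card_erase_add_one hv
    omega
  obtain ⟨T', hs, hT', hlt⟩ := exists_cycS_lt' hsum
  have := hmin T' hs hT'
  omega

/-- outside vertices have at most two neighbours on a minimal long cycle -/
theorem dg_out_le {T : Finset V} {v : V} (hT : CycS G T) (hv : v ∉ T)
    (hmin : ∀ T' ⊆ insert v T, CycS G T' → T.card ≤ T'.card) (h4 : 4 ≤ T.card) :
    dg G T v ≤ 2 := by
  classical
  by_contra hcon
  have hreg := dg_in_eq hT fun T' hT' => hmin T' (hT'.trans (Finset.subset_insert _ _))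
  by_cases hall : ∀ z ∈ T, G.Adj v z
  · obtain ⟨z, hz⟩ := hT.1
    obtain ⟨z', hz', hzz⟩ := exists_of_dg_pos (G := G) (T := T) (v := z) (by
      rw [hreg z hz]; omega)
    have h1 := hmin {v, z, z'} (by
      intro x hx
      simp only [Finset.mem_insert, Finset.mem_singleton] at hx
      rcases hx with rfl | rfl | rfl
      · exact Finset.mem_insert_self _ _
      · exact Finset.mem_insert_of_mem hz
      · exact Finset.mem_insert_of_mem hz')
      (CycS.of_adj3 (hall z hz) hzz (hall z' hz').symm)
    have h2 : ({v, z, z'} : Finset V).card ≤ 3 := Finset.card_le_three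
    omega
  · push Not at hall
    obtain ⟨z, hz, hvz⟩ := hall
    have hvz' : v ∉ T.erase z := fun h => hv (Finset.mem_of_mem_erase h)
    have hc := Finset.card_erase_add_one hz
    have e1 := eS_insert_self (G := G) hvz'
    have e2 := eS_erase_self (G := G) hz
    have e3 : eS G T T = 2 * T.card := by
      unfold eS
      rw [Finset.sum_congr rfl hreg, Finset.sum_const, smul_eq_mul, mul_comm]
    have e4 : dg G (T.erase z) v = dg G T v := by
      rw [dg_eq_card, dg_eq_card]
      congr 1
      ext x
      simp only [Finset.mem_filter, Finset.mem_erase]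
      refine ⟨fun h => ⟨h.1.2, h.2⟩, fun h => ⟨⟨?_, h.1⟩, h.2⟩⟩
      rintro rfl
      exact hvz h.2
    have e5 : (insert v (T.erase z)).card = T.card := by
      rw [Finset.card_insert_of_notMem hvz', hc]
    rw [hreg z hz] at e2
    obtain ⟨T', hs, hT', hlt⟩ := exists_cycS_lt (G := G) (S := insert v (T.erase z)) (by omega)
    have := hmin T' (hs.trans (Finset.insert_subset_insert _ (Finset.erase_subset _ _))) hT'
    omega

end Pool.Agent.FRC.CH
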