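import Pool.Agent.LCK.Step
import Pool.Agent.FRC.Greedy

set_option linter.all false

/-!
# Corradi-Hajnal: definitions

Everything is done with nonempty vertex sets whose inner degrees are at least `2`; only at the
very end such a set is replaced by a cycle inside it.
-/

namespace Pool.Agent.FRC.CH

open Pool.Agent.LCK Pool.Agent.Helper14.LongCyc

universe u

variable {V : Type u}

/-- a nonempty set with inner degrees at least `2` -/
def CycS (G : SimpleGraph V) (T : Finset V) : Prop := T.Nonempty ∧ ∀ v ∈ T, 2 ≤ dg G T v

/-- a family of pairwise disjoint sets of this kind -/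
structure FamC (G : SimpleGraph V) (U : Finset V) (F : Finset (Finset V)) : Prop where
  cyc : ∀ s ∈ F, CycS G s
  sub : ∀ s ∈ F, s ⊆ U
  disj : ∀ s ∈ F, ∀ t ∈ F, s ≠ t → Disjoint s t

/-- the list `l` is a (nonempty) path inside `S` -/
def PthIn (G : SimpleGraph V) (S : Finset V) (l : List V) : Prop :=
  l ≠ [] ∧ l.Nodup ∧ l.IsChain G.Adj ∧ ∀ x ∈ l, x ∈ S

/-- `F` has `m` members with minimal total size, `l` is a longest path of the rest, there are no
`m + 1` disjoint members -/
structure Opt (G : SimpleGraph V) (U : Finset V) (m : ℕ) (F : Finset (Finset V))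
    (l : List V) : Prop where
  fam : FamC G U F
  card : F.card = m
  min : ∀ F', FamC G U F' → F'.card = m → tot F ≤ tot F'
  path : PthIn G (rest U F) l
  long : ∀ F' l', FamC G U F' → F'.card = m → tot F' = tot F → PthIn G (rest U F') l' →
    l'.length ≤ l.length
  no : ∀ F', FamC G U F' → F'.card ≠ m + 1

end Pool.Agent.FRC.CH
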