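import Pool.Agent.FRC.CH.Defs

set_option linter.all false

/-!
# Corradi-Hajnal: adding edges

Induction on the number of non-adjacent pairs inside `U`.  If all pairs are adjacent there are
`k` disjoint triangles; otherwise add one edge `x y`: the larger graph has `k` disjoint cycle
sets, at most one of them contains both `x` and `y`, and without this one there are `k - 1`
disjoint cycle sets of `G` whose rest has at least three vertices.
-/

namespace Pool.Agent.FRC.CH

open Pool.Agent.LCK Pool.Agent.Helper14.LongCyc

universe u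

variable {V : Type u} [DecidableEq V]

/-- degrees in a larger graph -/
theorem em_dg_mono {G G' : SimpleGraph V} (h : ∀ a b, G.Adj a b → G'.Adj a b) (W : Finset V)
    (v : V) : dg G W v ≤ dg G' W v := by
  classical
  unfold dg
  refine Finset.card_le_card fun w hw => ?_
  rw [Finset.mem_filter] at hw ⊢
  exact ⟨hw.1, h _ _ hw.2⟩

/-- a cycle set has at least three elements -/
theorem em_three_le {G : SimpleGraph V} {T : Finset V} (h : CycS G T) : 3 ≤ T.card := by
  classical
  obtain ⟨⟨v, hv⟩, h2⟩ := h
  have h3 := h2 v hv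
  have h4 : (T.filter fun w => G.Adj v w) ⊆ T.erase v := by
    intro w hw
    rw [Finset.mem_filter] at hw
    rw [Finset.mem_erase]
    exact ⟨fun e => G.loopless.irrefl v (by rw [e] at hw; exact hw.2), hw.1⟩
  have h5 := Finset.card_le_card h4
  rw [Finset.card_erase_of_mem hv] at h5
  have h6 : dg G T v = (T.filter fun w => G.Adj v w).card := by
    unfold dg
    congr
  omega

/-- disjoint triangles in a complete set -/
theorem em_complete {G : SimpleGraph V} {U : Finset V}
    (hG : ∀ a ∈ U, ∀ b ∈ U, a ≠ b → G.Adj a b) :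
    ∀ k : ℕ, 3 * k ≤ U.card → ∃ F, FamC G U F ∧ F.card = k ∧ ∀ s ∈ F, s.card = 3 := by
  classical
  intro k
  induction k with
  | zero =>
    intro _
    exact ⟨∅, ⟨by simp, by simp, by simp⟩, rfl, by simp⟩
  | succ k ih =>
    intro hk
    obtain ⟨F, hF, hFk, hF3⟩ := ih (by omega)
    have hB : (F.biUnion id).card ≤ F.card * 3 :=
      Finset.card_biUnion_le_card_mul _ _ _ fun s hs => (hF3 s hs).le
    have hR : 3 ≤ (U \ F.biUnion id).card := by
      have := Finset.le_card_sdiff (F.biUnion id) U
      omega
    obtain ⟨D, hD, hD3⟩ := Finset.exists_subset_card_eq hR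
    have hDU : D ⊆ U := fun x hx => (Finset.mem_sdiff.1 (hD hx)).1
    have hDF : ∀ s ∈ F, Disjoint D s := by
      intro s hs
      rw [Finset.disjoint_left]
      intro x hx hxs
      exact (Finset.mem_sdiff.1 (hD hx)).2 (Finset.mem_biUnion.2 ⟨s, hs, hxs⟩)
    have hDn : D ∉ F := by
      intro hDF'
      have h1 := hDF D hDF'
      rw [disjoint_self, Finset.bot_eq_empty] at h1
      rw [h1] at hD3
      simp at hD3
    refine ⟨insert D F, ⟨?_, ?_, ?_⟩, ?_, ?_⟩
    · intro s hs
      rcases Finset.mem_insert.1 hs with rfl | hs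
      · refine ⟨Finset.card_pos.1 (by omega), fun v hv => ?_⟩
        have h4 : s.erase v ⊆ s.filter fun w => G.Adj v w := by
          intro w hw
          rw [Finset.mem_erase] at hw
          rw [Finset.mem_filter]
          exact ⟨hw.2, hG v (hDU hv) w (hDU hw.2) (Ne.symm hw.1)⟩
        have h5 := Finset.card_le_card h4
        rw [Finset.card_erase_of_mem hv] at h5
        have h6 : dg G s v = (s.filter fun w => G.Adj v w).card := by
          unfold dg
          congr
        omega
      · exact hF.cyc s hs
    · intro s hs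
      rcases Finset.mem_insert.1 hs with rfl | hs
      · exact hDU
      · exact hF.sub s hs
    · intro s hs t ht hst
      rcases Finset.mem_insert.1 hs with hs1 | hs1
      · rcases Finset.mem_insert.1 ht with ht1 | ht1
        · exact absurd (hs1.trans ht1.symm) hst
        · rw [hs1]
          exact hDF t ht1
      · rcases Finset.mem_insert.1 ht with ht1 | ht1
        · rw [ht1]
          exact (hDF s hs1).symm
        · exact hF.disj s hs1 t ht1 hst
    · rw [Finset.card_insert_of_notMem hDn, hFk]
    · intro s hs
      rcases Finset.mem_insert.1 hs with rfl | hs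
      · exact hD3
      · exact hF3 s hs

/-- **edge-maximality** -/
theorem edge_max
    (step : ∀ (G : SimpleGraph V) (U : Finset V) (m : ℕ), (∀ v ∈ U, 2 * (m + 1) ≤ dg G U v) →
      (∃ F, FamC G U F ∧ F.card = m ∧ 3 ≤ (rest U F).card) →
      ∃ F, FamC G U F ∧ F.card = m + 1) :
    ∀ (G : SimpleGraph V) (U : Finset V) (k : ℕ), 3 * k ≤ U.card →
      (∀ v ∈ U, 2 * k ≤ dg G U v) → ∃ F, FamC G U F ∧ F.card = k := by
  classical
  intro G U k hU
  -- induction on the number of missing pairs
  have main : ∀ (N : ℕ) (G : SimpleGraph V),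
      ((U ×ˢ U).filter fun p => p.1 ≠ p.2 ∧ ¬ G.Adj p.1 p.2).card ≤ N →
      (∀ v ∈ U, 2 * k ≤ dg G U v) → ∃ F, FamC G U F ∧ F.card = k := by
    intro N
    induction N with
    | zero =>
      intro G hN _
      have h0 := Finset.card_eq_zero.1 (Nat.le_zero.1 hN)
      obtain ⟨F, hF, hk, _⟩ := em_complete (G := G) (U := U) (by
        intro a ha b hb hab
        by_contra hcon
        have : (a, b) ∈ ((U ×ˢ U).filter fun p => p.1 ≠ p.2 ∧ ¬ G.Adj p.1 p.2) := by
          rw [Finset.mem_filter, Finset.mem_product]
          exact ⟨⟨ha, hb⟩, hab, hcon⟩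
        rw [h0] at this
        exact absurd this (Finset.notMem_empty _)) k hU
      exact ⟨F, hF, hk⟩
    | succ N ih =>
      intro G hN hdeg
      by_cases hne : ((U ×ˢ U).filter fun p => p.1 ≠ p.2 ∧ ¬ G.Adj p.1 p.2).Nonempty
      · obtain ⟨⟨x, y⟩, hxy⟩ := hne
        rw [Finset.mem_filter, Finset.mem_product] at hxy
        obtain ⟨⟨hx, hy⟩, hxy', hnadj⟩ := hxy
        simp only at hx hy hxy' hnadj
        rcases Nat.eq_zero_or_pos k with rfl | hkpos
        · exact ⟨∅, ⟨by simp, by simp, by simp⟩, rfl⟩
        obtain ⟨m, rfl⟩ : ∃ m, k = m + 1 := ⟨k - 1, by omega⟩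
        obtain ⟨G', hadj⟩ : ∃ G' : SimpleGraph V, ∀ a b, G'.Adj a b ↔
            G.Adj a b ∨ ((a = x ∧ b = y) ∨ (a = y ∧ b = x)) := by
          refine ⟨G ⊔ SimpleGraph.edge x y, fun a b => ?_⟩
          rw [SimpleGraph.sup_adj, SimpleGraph.edge_adj]
          constructor
          · rintro (h | ⟨h, _⟩)
            · exact Or.inl h
            · rcases h with h | h
              · exact Or.inr (Or.inl h)
              · exact Or.inr (Or.inr h)
          · rintro (h | h)
            · exact Or.inl h
            · refine Or.inr ⟨?_, ?_⟩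
              · rcases h with h | h
                · exact Or.inl h
                · exact Or.inr h
              · rcases h with ⟨rfl, rfl⟩ | ⟨rfl, rfl⟩
                · exact hxy'
                · exact hxy'.symm
        have hle : ∀ a b, G.Adj a b → G'.Adj a b := fun a b h => (hadj a b).2 (Or.inl h)
        obtain ⟨F', hF', hk'⟩ := ih G' (by
          have hlt : (((U ×ˢ U).filter fun p => p.1 ≠ p.2 ∧ ¬ G'.Adj p.1 p.2)).card <
              ((U ×ˢ U).filter fun p => p.1 ≠ p.2 ∧ ¬ G.Adj p.1 p.2).card := by
            refine Finset.card_lt_card ?_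
            rw [Finset.ssubset_iff_of_subset]
            · refine ⟨(x, y), ?_, ?_⟩
              · rw [Finset.mem_filter, Finset.mem_product]
                exact ⟨⟨hx, hy⟩, hxy', hnadj⟩
              · rw [Finset.mem_filter]
                rintro ⟨_, _, h⟩
                exact h ((hadj x y).2 (Or.inr (Or.inl ⟨rfl, rfl⟩)))
            · intro p hp
              rw [Finset.mem_filter] at hp ⊢
              exact ⟨hp.1, hp.2.1, fun h => hp.2.2 (hle _ _ h)⟩
          omega) (fun v hv => (hdeg v hv).trans (em_dg_mono hle U v))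
        -- a member without x or without y is a cycle set of G
        have hmem : ∀ s ∈ F', ¬ (x ∈ s ∧ y ∈ s) → CycS G s := by
          intro s hs hxs
          refine ⟨(hF'.cyc s hs).1, fun v hv => ?_⟩
          refine ((hF'.cyc s hs).2 v hv).trans ?_
          unfold dg
          refine Finset.card_le_card fun w hw => ?_
          rw [Finset.mem_filter] at hw ⊢
          refine ⟨hw.1, ?_⟩
          rcases (hadj v w).1 hw.2 with h | ⟨rfl, rfl⟩ | ⟨rfl, rfl⟩
          · exact h
          · exact absurd ⟨hv, hw.1⟩ hxs
          · exact absurd ⟨hw.1, hv⟩ hxs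
        by_cases hex : ∃ s ∈ F', x ∈ s ∧ y ∈ s
        · obtain ⟨s0, hs0, hx0, hy0⟩ := hex
          refine step G U m hdeg ⟨F'.erase s0, ⟨?_, ?_, ?_⟩, ?_, ?_⟩
          · intro s hs
            rw [Finset.mem_erase] at hs
            refine hmem s hs.2 fun h => ?_
            exact Finset.disjoint_left.1 (hF'.disj s hs.2 s0 hs0 hs.1) h.1 hx0
          · exact fun s hs => hF'.sub s (Finset.mem_of_mem_erase hs)
          · exact fun s hs t ht => hF'.disj s (Finset.mem_of_mem_erase hs) t
              (Finset.mem_of_mem_erase ht)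
          · rw [Finset.card_erase_of_mem hs0, hk']
            rfl
          · refine (em_three_le (hF'.cyc s0 hs0)).trans (Finset.card_le_card fun v hv => ?_)
            rw [mem_rest]
            refine ⟨hF'.sub s0 hs0 hv, fun s hs hvs => ?_⟩
            rw [Finset.mem_erase] at hs
            exact Finset.disjoint_left.1 (hF'.disj s hs.2 s0 hs0 hs.1) hvs hv
        · push Not at hex
          exact ⟨F', ⟨fun s hs => hmem s hs fun h => hex s hs h.1 h.2, hF'.sub, hF'.disj⟩, hk'⟩
      · rw [Finset.not_nonempty_iff_eq_empty] at hne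
        exact ih G (by rw [hne]; simp) hdeg
  exact main _ G le_rfl

end Pool.Agent.FRC.CH
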