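import Pool.Agent.FRC.CH.Base

set_option linter.all false

/-!
# Corradi-Hajnal, row FAM: families of disjoint sets with inner degrees at least `2`
-/

namespace Pool.Agent.FRC.CH

open Pool.Agent.LCK Pool.Agent.Helper14.LongCyc

universe u

variable {V : Type u} [DecidableEq V] {G : SimpleGraph V} {U : Finset V} {m : ℕ}
  {F : Finset (Finset V)} {l : List V}

/-- every vertex of `U` is in the rest or in exactly one member: sums split -/
theorem FamC.sum_split (h : FamC G U F) (f : V → ℕ) :
    ∑ v ∈ U, f v = ∑ v ∈ rest U F, f v + ∑ s ∈ F, ∑ v ∈ s, f v := by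
  classical
  have h1 : U = rest U F ∪ F.biUnion id := by
    ext v
    simp only [Finset.mem_union, mem_rest, Finset.mem_biUnion, id]
    constructor
    · intro hv
      by_cases hc : ∃ s ∈ F, v ∈ s
      · exact Or.inr hc
      · push Not at hc
        exact Or.inl ⟨hv, hc⟩
    · rintro (hv | ⟨s, hs, hv⟩)
      · exact hv.1
      · exact h.sub s hs hv
  have h2 : Disjoint (rest U F) (F.biUnion id) := by
    rw [Finset.disjoint_left]
    intro v hv hv'
    rw [Finset.mem_biUnion] at hv'
    obtain ⟨s, hs, hvs⟩ := hv'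
    exact (mem_rest.1 hv).2 s hs hvs
  conv_lhs => rw [h1]
  rw [Finset.sum_union h2, Finset.sum_biUnion]
  · rfl
  · intro s hs t ht hst
    exact h.disj s hs t ht hst

theorem FamC.eS_split (h : FamC G U F) (A : Finset V) :
    eS G A U = eS G A (rest U F) + ∑ s ∈ F, eS G A s := by
  rw [eS_comm A U]
  unfold eS
  rw [h.sum_split]
  congr 1
  · exact eS_comm _ _
  · exact Finset.sum_congr rfl fun s _ => eS_comm _ _

theorem FamC.dg_sum (hF : FamC G U F) (x : V) :
    dg G U x = dg G (rest U F) x + ∑ C ∈ F, dg G C x := by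
  have := hF.eS_split ({x} : Finset V)
  simpa [eS] using this

theorem FamC.tot_add (hF : FamC G U F) : tot F + (rest U F).card = U.card := by
  have := hF.sum_split (fun _ => 1)
  simp only [Finset.sum_const, smul_eq_mul, mul_one] at this
  unfold tot
  omega

/-- replace the subfamily `A` of `F` by a family `B` inside the union of `A` and the rest -/
theorem FamC.swap {A B : Finset (Finset V)} (h : FamC G U F) (hA : A ⊆ F)
    (hB : FamC G (A.biUnion id ∪ rest U F) B) :
    FamC G U ((F \ A) ∪ B) ∧ Disjoint (F \ A) B ∧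
      rest U ((F \ A) ∪ B) = rest (A.biUnion id ∪ rest U F) B := by
  classical
  have key : ∀ s ∈ F \ A, ∀ t ∈ B, Disjoint s t := by
    intro s hs t ht
    rw [Finset.mem_sdiff] at hs
    rw [Finset.disjoint_left]
    intro v hv hvt
    have := hB.sub t ht hvt
    rw [Finset.mem_union, Finset.mem_biUnion] at this
    rcases this with ⟨w, hw, hvw⟩ | hv2
    · have hne : s ≠ w := by rintro rfl; exact hs.2 hw
      exact (Finset.disjoint_left.1 (h.disj s hs.1 w (hA hw) hne)) hv hvw
    · exact (mem_rest.1 hv2).2 s hs.1 hv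
  have hsub : ∀ t ∈ B, t ⊆ U := by
    intro t ht v hv
    have := hB.sub t ht hv
    rw [Finset.mem_union, Finset.mem_biUnion] at this
    rcases this with ⟨w, hw, hvw⟩ | hv2
    · exact h.sub w (hA hw) hvw
    · exact rest_subset _ _ hv2
  refine ⟨⟨?_, ?_, ?_⟩, ?_, ?_⟩
  · intro s hs
    rcases Finset.mem_union.1 hs with hs | hs
    · exact h.cyc s (Finset.mem_sdiff.1 hs).1
    · exact hB.cyc s hs
  · intro s hs
    rcases Finset.mem_union.1 hs with hs | hs
    · exact h.sub s (Finset.mem_sdiff.1 hs).1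
    · exact hsub s hs
  · intro s hs t ht hst
    rcases Finset.mem_union.1 hs with hs | hs <;> rcases Finset.mem_union.1 ht with ht | ht
    · exact h.disj s (Finset.mem_sdiff.1 hs).1 t (Finset.mem_sdiff.1 ht).1 hst
    · exact key s hs t ht
    · exact (key t ht s hs).symm
    · exact hB.disj s hs t ht hst
  · rw [Finset.disjoint_left]
    intro s hs hs'
    have h1 := key s hs s hs'
    have h2 : s = ∅ := by simpa using h1
    have h3 := (h.cyc s (Finset.mem_sdiff.1 hs).1).1
    rw [h2] at h3
    simp at h3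
  · ext v
    simp only [mem_rest, Finset.mem_union, Finset.mem_biUnion, id, Finset.mem_sdiff]
    constructor
    · rintro ⟨hvU, hv⟩
      refine ⟨?_, fun s hs => hv s (Or.inr hs)⟩
      by_cases hc : ∃ w ∈ A, v ∈ w
      · exact Or.inl hc
      · push Not at hc
        refine Or.inr ⟨hvU, fun s hs => ?_⟩
        by_cases hsA : s ∈ A
        · exact hc s hsA
        · exact hv s (Or.inl ⟨hs, hsA⟩)
    · rintro ⟨h1, h2⟩
      constructor
      · rcases h1 with ⟨w, hw, hvw⟩ | h1
        · exact h.sub w (hA hw) hvw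
        · exact h1.1
      · rintro s (⟨hs, hsA⟩ | hs)
        · rcases h1 with ⟨w, hw, hvw⟩ | h1
          · intro hvs
            have hne : s ≠ w := by rintro rfl; exact hsA hw
            exact (Finset.disjoint_left.1 (h.disj s hs w (hA hw) hne)) hvs hvw
          · exact h1.2 s hs
        · exact h2 s hs

/-- the number of members after such a replacement -/
theorem FamC.swap_card {A B : Finset (Finset V)} (h : FamC G U F) (hA : A ⊆ F)
    (hB : FamC G (A.biUnion id ∪ rest U F) B) :
    ((F \ A) ∪ B).card + A.card = F.card + B.card := by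
  obtain ⟨_, h2, _⟩ := h.swap hA hB
  rw [Finset.card_union_of_disjoint h2, Finset.card_sdiff_of_subset hA]
  have := Finset.card_le_card hA
  omega

theorem FamC.single {W D : Finset V} (hD : CycS G D) (hDs : D ⊆ W) :
    FamC G W ({D} : Finset (Finset V)) :=
  ⟨by simpa using hD, by simpa using hDs, by
    intro s hs t ht hst
    rw [Finset.mem_singleton] at hs ht
    exact absurd (hs.trans ht.symm) hst⟩

theorem CycS.ne_of_disjoint {D E : Finset V} (hD : CycS G D) (h : Disjoint D E) : D ≠ E := by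
  rintro rfl
  have h1 : D = ∅ := by simpa using h
  have h2 := hD.1
  rw [h1] at h2
  simp at h2

theorem FamC.pair {W D E : Finset V} (hD : CycS G D) (hE : CycS G E) (hDE : Disjoint D E)
    (hDs : D ⊆ W) (hEs : E ⊆ W) :
    FamC G W ({D, E} : Finset (Finset V)) ∧ ({D, E} : Finset (Finset V)).card = 2 := by
  refine ⟨⟨?_, ?_, ?_⟩, Finset.card_pair (hD.ne_of_disjoint hDE)⟩
  · intro s hs
    rw [Finset.mem_insert, Finset.mem_singleton] at hs
    rcases hs with rfl | rfl
    · exact hD
    · exact hE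
  · intro s hs
    rw [Finset.mem_insert, Finset.mem_singleton] at hs
    rcases hs with rfl | rfl
    · exact hDs
    · exact hEs
  · intro s hs t ht hst
    rw [Finset.mem_insert, Finset.mem_singleton] at hs ht
    rcases hs with rfl | rfl <;> rcases ht with rfl | rfl
    · exact absurd rfl hst
    · exact hDE
    · exact hDE.symm
    · exact absurd rfl hst

theorem FamC.triple {W D E K : Finset V} (hD : CycS G D) (hE : CycS G E) (hK : CycS G K)
    (hDE : Disjoint D E) (hDK : Disjoint D K) (hEK : Disjoint E K)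
    (hDs : D ⊆ W) (hEs : E ⊆ W) (hKs : K ⊆ W) :
    FamC G W ({D, E, K} : Finset (Finset V)) ∧ ({D, E, K} : Finset (Finset V)).card = 3 := by
  refine ⟨⟨?_, ?_, ?_⟩, ?_⟩
  · intro s hs
    simp only [Finset.mem_insert, Finset.mem_singleton] at hs
    rcases hs with rfl | rfl | rfl
    · exact hD
    · exact hE
    · exact hK
  · intro s hs
    simp only [Finset.mem_insert, Finset.mem_singleton] at hs
    rcases hs with rfl | rfl | rfl
    · exact hDs
    · exact hEs
    · exact hKs
  · intro s hs t ht hst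
    simp only [Finset.mem_insert, Finset.mem_singleton] at hs ht
    rcases hs with rfl | rfl | rfl <;> rcases ht with rfl | rfl | rfl
    · exact absurd rfl hst
    · exact hDE
    · exact hDK
    · exact hDE.symm
    · exact absurd rfl hst
    · exact hEK
    · exact hDK.symm
    · exact hEK.symm
    · exact absurd rfl hst
  · rw [Finset.card_insert_of_notMem, Finset.card_pair (hE.ne_of_disjoint hEK)]
    simp only [Finset.mem_insert, Finset.mem_singleton, not_or]
    exact ⟨hD.ne_of_disjoint hDE, hD.ne_of_disjoint hDK⟩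

theorem FamC.add (hF : FamC G U F) {D : Finset V} (hD : CycS G D) (hDs : D ⊆ rest U F) :
    ∃ F', FamC G U F' ∧ F'.card = F.card + 1 := by
  have hB : FamC G ((∅ : Finset (Finset V)).biUnion id ∪ rest U F) {D} :=
    FamC.single hD (by simpa using hDs)
  obtain ⟨h1, _, _⟩ := hF.swap (Finset.empty_subset F) hB
  have h2 := hF.swap_card (Finset.empty_subset F) hB
  exact ⟨_, h1, by simpa using h2⟩

theorem FamC.two (hF : FamC G U F) {C D E : Finset V} (hC : C ∈ F) (hD : CycS G D)
    (hE : CycS G E) (hDE : Disjoint D E) (hDs : D ⊆ C ∪ rest U F) (hEs : E ⊆ C ∪ rest U F) :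
    ∃ F', FamC G U F' ∧ F'.card = F.card + 1 := by
  have hA : ({C} : Finset (Finset V)) ⊆ F := by simpa using hC
  obtain ⟨hB, hB2⟩ := FamC.pair (W := ({C} : Finset (Finset V)).biUnion id ∪ rest U F) hD hE hDE
    (by simpa using hDs) (by simpa using hEs)
  have h2 := hF.swap_card hA hB
  rw [hB2, Finset.card_singleton] at h2
  exact ⟨_, (hF.swap hA hB).1, by omega⟩

theorem FamC.replace (hF : FamC G U F) {C D : Finset V} (hC : C ∈ F) (hD : CycS G D)
    (hDs : D ⊆ C ∪ rest U F) :
    FamC G U (insert D (F.erase C)) ∧ (insert D (F.erase C)).card = F.card ∧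
      tot (insert D (F.erase C)) + C.card = tot F + D.card ∧
      rest U (insert D (F.erase C)) = (C ∪ rest U F) \ D := by
  have hA : ({C} : Finset (Finset V)) ⊆ F := by simpa using hC
  have hB : FamC G (({C} : Finset (Finset V)).biUnion id ∪ rest U F) {D} :=
    FamC.single hD (by simpa using hDs)
  obtain ⟨h1, h2, h3⟩ := hF.swap hA hB
  have h4 := hF.swap_card hA hB
  have e : (F \ {C}) ∪ {D} = insert D (F.erase C) := by
    rw [Finset.sdiff_singleton_eq_erase, Finset.union_comm, Finset.insert_eq]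
  rw [e] at h1 h3 h4
  have h5 : rest U (insert D (F.erase C)) = (C ∪ rest U F) \ D := by
    rw [h3]
    ext v
    simp [mem_rest]
  refine ⟨h1, by simpa using h4, ?_, h5⟩
  have h6 := h1.tot_add
  have h7 := hF.tot_add
  rw [h5] at h6
  have h8 := Finset.card_sdiff_of_subset hDs
  have h9 : (C ∪ rest U F).card = C.card + (rest U F).card :=
    Finset.card_union_of_disjoint (Fam.rest_disj hC)
  have h10 := Finset.card_le_card hDs
  omega

/-- conversion to actual cycles -/
theorem FamC.toFam (hF : FamC G U F) :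
    ∃ F', Fam G U (fun L => 3 ≤ L) F' ∧ F'.card = F.card := by
  classical
  have key : ∀ s : F, ∃ C : Finset V, CycSet G C ∧ C ⊆ (s : Finset V) ∧ 3 ≤ C.card := by
    intro s
    obtain ⟨h1, h2⟩ := hF.cyc s s.2
    exact greedy_one le_rfl h1 fun v hv => by
      have := h2 v hv
      omega
  choose f h1 h2 h3 using key
  have hdisj : ∀ s t : F, s ≠ t → Disjoint (f s) (f t) := by
    intro s t hst
    exact Disjoint.mono (h2 s) (h2 t) (hF.disj s s.2 t t.2 fun h => hst (Subtype.ext h))
  have hinj : Function.Injective f := by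
    intro s t hst
    by_contra hne
    have h4 := hdisj s t hne
    rw [← hst, disjoint_self] at h4
    have h5 := h3 s
    rw [h4] at h5
    simp at h5
  refine ⟨Finset.univ.image f, ⟨?_, ?_, ?_, ?_⟩, ?_⟩
  · intro s hs
    obtain ⟨i, _, rfl⟩ := Finset.mem_image.1 hs
    exact h1 i
  · intro s hs
    obtain ⟨i, _, rfl⟩ := Finset.mem_image.1 hs
    exact (h2 i).trans (hF.sub i i.2)
  · intro s hs
    obtain ⟨i, _, rfl⟩ := Finset.mem_image.1 hs
    exact h3 i
  · intro s hs t ht hst
    obtain ⟨i, _, rfl⟩ := Finset.mem_image.1 hs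
    obtain ⟨j, _, rfl⟩ := Finset.mem_image.1 ht
    exact hdisj i j fun h => hst (by rw [h])
  · rw [Finset.card_image_of_injective _ hinj, Finset.card_univ, Fintype.card_coe]

theorem PthIn.length_le {S : Finset V} (h : PthIn G S l) : l.length ≤ S.card := by
  rw [← List.toFinset_card_of_nodup h.2.1]
  exact Finset.card_le_card fun x hx => h.2.2.2 x (List.mem_toFinset.1 hx)

theorem exists_opt (hno : ∀ F', FamC G U F' → F'.card ≠ m + 1)
    (h0 : ∃ F, FamC G U F ∧ F.card = m ∧ 3 ≤ (rest U F).card) :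
    ∃ F l, Opt G U m F l ∧ 3 ≤ (rest U F).card := by
  classical
  obtain ⟨F₀, hF₀, hm₀, h3⟩ := h0
  obtain ⟨x₀, hx₀⟩ : (rest U F₀).Nonempty := Finset.card_pos.1 (by omega)
  -- minimal total size, then longest list (the empty list is allowed)
  obtain ⟨⟨F, l⟩, ⟨hF, hm, hl1, hl2, hl3⟩, hmin, hmax⟩ := exists_lex
    (fun w : Finset (Finset V) × List V => FamC G U w.1 ∧ w.1.card = m ∧ w.2.Nodup ∧
      w.2.IsChain G.Adj ∧ ∀ x ∈ w.2, x ∈ rest U w.1)
    (fun w => tot w.1) (fun w => w.2.length) U.card (by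
      rintro ⟨F, l⟩ ⟨_, _, h1, _, h2⟩
      simp only
      rw [← List.toFinset_card_of_nodup h1]
      exact Finset.card_le_card fun x hx => rest_subset _ _ (h2 x (List.mem_toFinset.1 hx)))
    ⟨(F₀, []), hF₀, hm₀, by simp, by simp, by simp⟩
  simp only at hF hm hl1 hl2 hl3 hmin hmax
  have hmin' : ∀ F', FamC G U F' → F'.card = m → tot F ≤ tot F' := by
    intro F' h1 h2
    exact hmin (F', []) ⟨h1, h2, by simp, by simp, by simp⟩
  have hrest : 3 ≤ (rest U F).card := by
    have h1 := hmin' F₀ hF₀ hm₀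
    have h2 := hF.tot_add
    have h4 := hF₀.tot_add
    omega
  have hne : l ≠ [] := by
    rintro rfl
    obtain ⟨x, hx⟩ : (rest U F).Nonempty := Finset.card_pos.1 (by omega)
    have := hmax (F, [x]) ⟨hF, hm, by simp, by simp, by simpa using hx⟩ rfl
    simp at this
  refine ⟨F, l, ⟨hF, hm, hmin', ⟨hne, hl1, hl2, hl3⟩, ?_, hno⟩, hrest⟩
  intro F' l' h1 h2 h4 h5
  exact hmax (F', l') ⟨h1, h2, h5.2.1, h5.2.2.1, h5.2.2.2⟩ h4

theorem Opt.acyc (h : Opt G U m F l) : ∀ T ⊆ rest U F, ¬ CycS G T := by
  intro T hT hc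
  obtain ⟨F', h1, h2⟩ := h.fam.add hc hT
  exact h.no F' h1 (by rw [h2, h.card])

/-- a member is not larger than any set of this kind inside it and the rest -/
theorem Opt.card_le (h : Opt G U m F l) {C D : Finset V} (hC : C ∈ F) (hD : CycS G D)
    (hDs : D ⊆ C ∪ rest U F) : C.card ≤ D.card := by
  obtain ⟨h1, h2, h3, _⟩ := h.fam.replace hC hD hDs
  have h4 := h.min _ h1 (by rw [h2, h.card])
  omega

theorem Opt.dg_in (h : Opt G U m F l) {C : Finset V} (hC : C ∈ F) : ∀ v ∈ C, dg G C v = 2 :=
  dg_in_eq (h.fam.cyc C hC) fun T' hT' hc =>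
    h.card_le hC hc (hT'.trans Finset.subset_union_left)

theorem Opt.dg_out (h : Opt G U m F l) {C : Finset V} (hC : C ∈ F) (h4 : 4 ≤ C.card) {v : V}
    (hv : v ∈ rest U F) : dg G C v ≤ 2 := by
  refine dg_out_le (h.fam.cyc C hC) (fun hvC => (mem_rest.1 hv).2 C hC hvC) ?_ h4
  intro T' hT' hc
  refine h.card_le hC hc (hT'.trans ?_)
  intro x hx
  rcases Finset.mem_insert.1 hx with rfl | hx
  · exact Finset.mem_union_right _ hv
  · exact Finset.mem_union_left _ hx

theorem Opt.no_two (h : Opt G U m F l) {C D E : Finset V} (hC : C ∈ F) (hD : CycS G D)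
    (hE : CycS G E) (hDE : Disjoint D E) (hDs : D ⊆ C ∪ rest U F) (hEs : E ⊆ C ∪ rest U F) :
    False := by
  obtain ⟨F', h1, h2⟩ := h.fam.two hC hD hE hDE hDs hEs
  exact h.no F' h1 (by rw [h2, h.card])

theorem Opt.not_longer (h : Opt G U m F l) {C D : Finset V} (hC : C ∈ F) (hD : CycS G D)
    (hDs : D ⊆ C ∪ rest U F) (hc : D.card = C.card) {l' : List V}
    (hl' : PthIn G ((C ∪ rest U F) \ D) l') : l'.length ≤ l.length := by
  obtain ⟨h1, h2, h3, h4⟩ := h.fam.replace hC hD hDs
  exact h.long _ l' h1 (by rw [h2, h.card]) (by omega) (by rw [h4]; exact hl')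

theorem Opt.swap (h : Opt G U m F l) {C D : Finset V} (hC : C ∈ F) (hD : CycS G D)
    (hDs : D ⊆ C ∪ rest U F) (hc : D.card = C.card) {l' : List V}
    (hl' : PthIn G ((C ∪ rest U F) \ D) l') (hlen : l'.length = l.length) :
    Opt G U m (insert D (F.erase C)) l' := by
  obtain ⟨h1, h2, h3, h4⟩ := h.fam.replace hC hD hDs
  have h5 : tot (insert D (F.erase C)) = tot F := by omega
  refine ⟨h1, by rw [h2, h.card], fun F' hF' hm => ?_, by rw [h4]; exact hl', ?_, h.no⟩
  · rw [h5]; exact h.min F' hF' hm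
  · intro F' l'' h6 h7 h8 h9
    rw [hlen]
    exact h.long F' l'' h6 h7 (by rw [h8, h5]) h9

end Pool.Agent.FRC.CH
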