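import Pool.Agent.FRC.CH.Three
import Pool.Agent.FRC.CH.EdgeMax

set_option linter.all false

/-!
# Corradi-Hajnal

If `3 k ≤ |U|` and every vertex of `U` has at least `2 k` neighbours in `U`, then `U` contains
`k` disjoint cycles.
-/

namespace Pool.Agent.FRC.CH

open Pool.Agent.LCK Pool.Agent.Helper14.LongCyc

universe u

variable {V : Type u} [DecidableEq V]

theorem step (G : SimpleGraph V) (U : Finset V) (m : ℕ) (hdeg : ∀ v ∈ U, 2 * (m + 1) ≤ dg G U v)
    (h0 : ∃ F, FamC G U F ∧ F.card = m ∧ 3 ≤ (rest U F).card) :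
    ∃ F, FamC G U F ∧ F.card = m + 1 := by
  by_contra hcon
  push Not at hcon
  obtain ⟨F, l, h, h3⟩ := exists_opt hcon h0
  have hr := h.rest_eq hdeg
  have hl := h.length_le hdeg
  have hc : l.toFinset.card = l.length := List.toFinset_card_of_nodup h.path.2.1
  rw [hr, hc] at h3
  match l, h, hr, hl, h3 with
  | [a, x, b], h, hr, _, _ => exact h.not_three hdeg (by rw [hr]; simp)
  | [], _, _, _, h3 => simp at h3
  | [_], _, _, _, h3 => simp at h3
  | [_, _], _, _, _, h3 => simp at h3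
  | _ :: _ :: _ :: _ :: _, _, _, hl, _ => simp only [List.length_cons] at hl; omega

end Pool.Agent.FRC.CH

namespace Pool.Agent.FRC

open Pool.Agent.LCK Pool.Agent.Helper14.LongCyc

universe u

/-- Corradi-Hajnal -/
theorem CH {V : Type u} [DecidableEq V] (G : SimpleGraph V) (U : Finset V) (k : ℕ)
    (hU : 3 * k ≤ U.card) (hd : ∀ v ∈ U, 2 * k ≤ dg G U v) :
    ∃ F, Fam G U (fun L => 3 ≤ L) F ∧ F.card = k := by
  obtain ⟨F, hF, hk⟩ := CH.edge_max CH.step G U k hU hd
  obtain ⟨F', hF', hk'⟩ := hF.toFam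
  exact ⟨F', hF', by rw [hk', hk]⟩

end Pool.Agent.FRC
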