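import Pool.Agent.FRC.CH.Defs
import Pool.Agent.FRC.CH.Base
import Pool.Agent.FRC.CH.Fam

set_option linter.all false

namespace Pool.Agent.FRC.CH

open Pool.Agent.LCK Pool.Agent.Helper14.LongCyc

universe u

variable {V : Type u} [DecidableEq V] {G : SimpleGraph V} {U : Finset V} {m : ℕ}
  {F : Finset (Finset V)} {l : List V}

/-- a path has enough edges -/
theorem path_eS_ge : ∀ l : List V, l ≠ [] → l.Nodup → l.IsChain G.Adj →
    2 * l.length ≤ eS G l.toFinset l.toFinset + 2
  | [], h, _, _ => absurd rfl h
  | [a], _, _, _ => by simp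
  | a :: b :: t, _, hn, hc => by
    have hn' := List.nodup_cons.1 hn
    have hc' := List.isChain_cons_cons.1 hc
    have ih := path_eS_ge (b :: t) (by simp) hn'.2 hc'.2
    have ha : a ∉ (b :: t).toFinset := fun h => hn'.1 (List.mem_toFinset.1 h)
    have e : (a :: b :: t).toFinset = insert a (b :: t).toFinset := by
      rw [List.toFinset_cons]
    rw [e, eS_insert_self ha]
    have h1 : 1 ≤ dg G (b :: t).toFinset a := by
      rw [Nat.one_le_iff_ne_zero]
      intro h0
      classical
      rw [dg_eq_card, Finset.card_eq_zero] at h0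
      have : b ∈ (b :: t).toFinset.filter fun u => G.Adj a u :=
        Finset.mem_filter.2 ⟨by simp, hc'.1⟩
      rw [h0] at this
      simp at this
    simp only [List.length_cons] at ih ⊢
    omega

theorem PthIn.eS_ge {S : Finset V} (h : PthIn G S l) :
    2 * l.length ≤ eS G l.toFinset l.toFinset + 2 :=
  path_eS_ge l h.1 h.2.1 h.2.2.1

theorem PthIn.sub {S : Finset V} (h : PthIn G S l) : l.toFinset ⊆ S :=
  fun x hx => h.2.2.2 x (List.mem_toFinset.1 hx)

theorem PthIn.card {S : Finset V} (h : PthIn G S l) : l.toFinset.card = l.length :=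
  List.toFinset_card_of_nodup h.2.1

/-- the first vertex of a longest path of an acyclic set has at most one neighbour -/
theorem PthIn.end_le {S : Finset V} {a : V} {t : List V} (h : PthIn G S (a :: t))
    (hac : ∀ T ⊆ S, ¬ CycS G T) (hmax : ∀ l', PthIn G S l' → l'.length ≤ (a :: t).length) :
    dg G S a ≤ 1 := by
  classical
  have hn := List.nodup_cons.1 h.2.1
  have hnb : ∀ x ∈ S, G.Adj a x → x ∈ t.toFinset := by
    intro x hx hax
    rw [List.mem_toFinset]
    by_contra hxt
    have hl : PthIn G S (x :: a :: t) := by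
      refine ⟨by simp, List.nodup_cons.2 ⟨?_, h.2.1⟩, List.isChain_cons_cons.2 ⟨hax.symm, h.2.2.1⟩,
        ?_⟩
      · intro hm
        rcases List.mem_cons.1 hm with rfl | hm
        · exact hax.ne rfl
        · exact hxt hm
      · intro y hy
        rcases List.mem_cons.1 hy with rfl | hy
        · exact hx
        · exact h.2.2.2 y hy
    have := hmax _ hl
    simp only [List.length_cons] at this
    omega
  by_contra hcon
  push Not at hcon
  have hle : dg G S a ≤ dg G t.toFinset a := by
    rw [dg_eq_card, dg_eq_card]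
    refine Finset.card_le_card fun x hx => ?_
    rw [Finset.mem_filter] at hx ⊢
    exact ⟨hnb x hx.1 hx.2, hx.2⟩
  have htne : t ≠ [] := by
    rintro rfl
    have h0 : dg G (([] : List V).toFinset) a = 0 := by
      rw [dg_eq_card]; simp
    rw [h0] at hle
    omega
  have hct : t.IsChain G.Adj := h.2.2.1.tail
  have h1 := path_eS_ge t htne hn.2 hct
  have ha : a ∉ t.toFinset := fun h => hn.1 (List.mem_toFinset.1 h)
  have e : (a :: t).toFinset = insert a t.toFinset := List.toFinset_cons
  have h2 := eS_insert_self (G := G) ha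
  rw [← e] at h2
  have h3 := h.card
  simp only [List.length_cons] at h3
  obtain ⟨T, hT, hTc⟩ := exists_cycS (G := G) (S := (a :: t).toFinset) (by simp) (by omega)
  exact hac T (hT.trans h.sub) hTc

/-- if the rest is larger than the path then it has a vertex of degree at most one off the path
(count the edges) -/
theorem PthIn.exists_off {S : Finset V} (h : PthIn G S l) (hac : ∀ T ⊆ S, ¬ CycS G T)
    (hne : (S \ l.toFinset).Nonempty) : ∃ y ∈ S \ l.toFinset, dg G S y ≤ 1 := by
  classical
  by_contra hcon
  push Not at hcon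
  have h1 : ∑ y ∈ S \ l.toFinset, 2 ≤ ∑ y ∈ S \ l.toFinset, dg G S y :=
    Finset.sum_le_sum fun y hy => hcon y hy
  rw [Finset.sum_const, smul_eq_mul] at h1
  have h2 : ∑ y ∈ S \ l.toFinset, dg G S y = eS G (S \ l.toFinset) S := rfl
  rw [h2, eS_split_right h.sub] at h1
  have hS : S = (S \ l.toFinset) ∪ l.toFinset := (Finset.sdiff_union_of_subset h.sub).symm
  have h3 : eS G S S = eS G (S \ l.toFinset) (S \ l.toFinset) +
      2 * eS G (S \ l.toFinset) l.toFinset + eS G l.toFinset l.toFinset := by
    conv_lhs => rw [hS]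
    exact eS_self_union Finset.sdiff_disjoint
  have h4 := h.eS_ge
  have h5 := acyc_eS (G := G) (hne.mono Finset.sdiff_subset) hac
  have h6 := acyc_eS (G := G) hne fun T hT => hac T (hT.trans Finset.sdiff_subset)
  have h7 : (S \ l.toFinset).card + l.toFinset.card = S.card :=
    Finset.card_sdiff_add_card_eq_card h.sub
  rw [h.card] at h7
  omega

/-- the rest is a path -/
theorem Opt.rest_eq (h : Opt G U m F l) (hdeg : ∀ v ∈ U, 2 * (m + 1) ≤ dg G U v) :
    rest U F = l.toFinset := by
  classical
  by_contra hne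
  have hsub := h.path.sub
  have hne' : (rest U F \ l.toFinset).Nonempty := by
    rw [Finset.sdiff_nonempty]
    intro hc
    exact hne (Finset.Subset.antisymm hc hsub)
  obtain ⟨y, hy, hy1⟩ := h.path.exists_off h.acyc hne'
  rw [Finset.mem_sdiff] at hy
  obtain ⟨a, t, rfl⟩ := List.exists_cons_of_ne_nil h.path.1
  have ha1 := h.path.end_le h.acyc fun l' hl' => h.long F l' h.fam h.card rfl hl'
  have haR : a ∈ rest U F := h.path.2.2.2 a (by simp)
  have hay : a ≠ y := by
    rintro rfl
    exact hy.2 (by simp)
  -- a member with at least five edges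
  have key : ∃ C ∈ F, 5 ≤ dg G C a + dg G C y := by
    by_contra hcon
    push Not at hcon
    have h1 : ∑ C ∈ F, (dg G C a + dg G C y) ≤ ∑ C ∈ F, 4 :=
      Finset.sum_le_sum fun C hC => by have := hcon C hC; omega
    simp only [Finset.sum_add_distrib, Finset.sum_const, smul_eq_mul] at h1
    rw [h.card] at h1
    have d1 := hdeg a (rest_subset _ _ haR)
    have d2 := hdeg y (rest_subset _ _ hy.1)
    rw [h.fam.dg_sum] at d1 d2
    omega
  obtain ⟨C, hC, h5⟩ := key
  have hCc := h.fam.cyc C hC
  have hC3 : C.card = 3 := by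
    have h3 := hCc.three_le
    by_contra hne3
    have h4 : 4 ≤ C.card := by omega
    have := h.dg_out hC h4 haR
    have := h.dg_out hC h4 hy.1
    omega
  have hadj := hCc.adj hC3
  -- the vertex which moves
  have hc : ∃ c ∈ C, G.Adj a c ∧ ∀ z ∈ C, z ≠ c → G.Adj y z := by
    have b1 : dg G C a ≤ 3 := by rw [← hC3]; exact dg_le C a
    have b2 : dg G C y ≤ 3 := by rw [← hC3]; exact dg_le C y
    by_cases h6 : dg G C y = 3
    · have hall : ∀ z ∈ C, G.Adj y z := by
        rw [dg_eq_card, ← hC3] at h6
        have h7 := Finset.filter_card_eq h6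
        exact h7
      obtain ⟨c, hcC, hac⟩ := exists_of_dg_pos (G := G) (T := C) (v := a) (by omega)
      exact ⟨c, hcC, hac, fun z hz _ => hall z hz⟩
    · have h7 : dg G C a = 3 := by omega
      have hall : ∀ z ∈ C, G.Adj a z := by
        rw [dg_eq_card, ← hC3] at h7
        exact Finset.filter_card_eq h7
      have h8 : dg G C y = 2 := by omega
      obtain ⟨c, hcC, hcy⟩ : ∃ c ∈ C, ¬ G.Adj y c := by
        by_contra hcon
        push Not at hcon
        rw [dg_eq_card, Finset.filter_true_of_mem hcon] at h8
        omega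
      refine ⟨c, hcC, hall c hcC, ?_⟩
      intro z hz hzc
      by_contra hyz
      rw [dg_eq_card] at h8
      have h9 : (C.filter fun u => G.Adj y u) ⊆ (C.erase c).erase z := by
        intro u hu
        rw [Finset.mem_filter] at hu
        rw [Finset.mem_erase, Finset.mem_erase]
        exact ⟨fun e => hyz (e ▸ hu.2), fun e => hcy (e ▸ hu.2), hu.1⟩
      have h10 := Finset.card_le_card h9
      rw [Finset.card_erase_of_mem (Finset.mem_erase.2 ⟨hzc, hz⟩),
        Finset.card_erase_of_mem hcC] at h10
      omega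
  obtain ⟨c, hcC, hac, hyc⟩ := hc
  have hyC : y ∉ C := (mem_rest.1 hy.1).2 C hC
  have hcard2 : (C.erase c).card = 2 := by rw [Finset.card_erase_of_mem hcC, hC3]
  obtain ⟨c1, c2, h12, he⟩ := Finset.card_eq_two.1 hcard2
  have hc1 : c1 ∈ C.erase c := by rw [he]; simp
  have hc2 : c2 ∈ C.erase c := by rw [he]; simp
  rw [Finset.mem_erase] at hc1 hc2
  have hD : CycS G (insert y (C.erase c)) := by
    rw [he]
    exact CycS.of_adj3 (hyc c1 hc1.2 hc1.1) (hadj c1 hc1.2 c2 hc2.2 h12) (hyc c2 hc2.2 hc2.1).symm
  have hyCe : y ∉ C.erase c := fun h' => hyC (Finset.mem_of_mem_erase h')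
  have hDcard : (insert y (C.erase c)).card = C.card := by
    rw [Finset.card_insert_of_notMem hyCe, hcard2, hC3]
  have hDs : insert y (C.erase c) ⊆ C ∪ rest U F := by
    intro x hx
    rcases Finset.mem_insert.1 hx with rfl | hx
    · exact Finset.mem_union_right _ hy.1
    · exact Finset.mem_union_left _ (Finset.mem_of_mem_erase hx)
  have hcl : c ∉ (a :: t) := fun hm => (mem_rest.1 (h.path.2.2.2 c hm)).2 C hC hcC
  have hl' : PthIn G ((C ∪ rest U F) \ insert y (C.erase c)) (c :: a :: t) := by
    refine ⟨by simp, List.nodup_cons.2 ⟨hcl, h.path.2.1⟩,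
      List.isChain_cons_cons.2 ⟨hac.symm, h.path.2.2.1⟩, ?_⟩
    intro x hx
    rw [Finset.mem_sdiff, Finset.mem_union, Finset.mem_insert]
    rcases List.mem_cons.1 hx with rfl | hx
    · refine ⟨Or.inl hcC, ?_⟩
      rintro (rfl | hx')
      · exact hyC hcC
      · exact (Finset.mem_erase.1 hx').1 rfl
    · have hxR := h.path.2.2.2 x hx
      refine ⟨Or.inr hxR, ?_⟩
      rintro (rfl | hx')
      · exact hy.2 (List.mem_toFinset.2 hx)
      · exact (mem_rest.1 hxR).2 C hC (Finset.mem_of_mem_erase hx')
  have := h.not_longer hC hD hDs hDcard hl'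
  simp only [List.length_cons] at this
  omega

/-- degrees of the first four vertices in the rest -/
theorem four_deg {a b c d : V} {t : List V} {S : Finset V} (h : PthIn G S (a :: b :: c :: d :: t))
    (hS : S = (a :: b :: c :: d :: t).toFinset) (hac : ∀ T ⊆ S, ¬ CycS G T) :
    dg G S a + dg G S b + dg G S c + dg G S d ≤ 7 := by
  classical
  have hn := h.2.1
  simp only [List.nodup_cons, List.mem_cons, not_or] at hn
  obtain ⟨⟨hab, hac', had, hat⟩, ⟨hbc, hbd, hbt⟩, ⟨hcd, hct⟩, hdt, ht⟩ := hn
  set Q : Finset V := {a, b, c, d} with hQ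
  have hd : Disjoint Q t.toFinset := by
    rw [Finset.disjoint_left]
    intro x hx hxt
    rw [List.mem_toFinset] at hxt
    simp only [hQ, Finset.mem_insert, Finset.mem_singleton] at hx
    rcases hx with rfl | rfl | rfl | rfl <;> contradiction
  have hSu : S = Q ∪ t.toFinset := by
    rw [hS]
    ext x
    simp only [hQ, List.mem_toFinset, List.mem_cons, Finset.mem_union, Finset.mem_insert,
      Finset.mem_singleton]
    tauto
  have hsum : eS G Q S = dg G S a + dg G S b + dg G S c + dg G S d := by
    unfold eS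
    rw [hQ, Finset.sum_insert (by simp [hab, hac', had]), Finset.sum_insert (by simp [hbc, hbd]),
      Finset.sum_insert (by simp [hcd]), Finset.sum_singleton]
    ring
  rw [← hsum]
  have hSne : S.Nonempty := ⟨a, by rw [hS]; simp⟩
  have h1 := acyc_eS (G := G) hSne hac
  have hcS : S.card = t.length + 4 := by
    have h2 := h.card
    rw [← hS] at h2
    simpa using h2
  have h3 : eS G Q S = eS G Q Q + eS G Q t.toFinset := by
    conv_lhs => rw [hSu]
    exact eS_union_right hd Q
  have h4 : eS G S S = eS G Q Q + 2 * eS G Q t.toFinset + eS G t.toFinset t.toFinset := by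
    conv_lhs => rw [hSu]
    exact eS_self_union hd
  match t, ht, hd, hSu, hcS, h3, h4, h with
  | [], ht, hd, hSu, hcS, h3, h4, h =>
    simp only [List.length_nil] at hcS
    omega
  | e :: t', ht, hd, hSu, hcS, h3, h4, h =>
    have hch := h.2.2.1
    simp only [List.isChain_cons_cons] at hch
    have h5 := path_eS_ge (G := G) (e :: t') (by simp) ht hch.2.2.2.2
    have h6 : 1 ≤ eS G Q (e :: t').toFinset := by
      have h7 : 1 ≤ dg G (e :: t').toFinset d := by
        rw [Nat.one_le_iff_ne_zero]
        intro h0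
        rw [dg_eq_card, Finset.card_eq_zero] at h0
        have : e ∈ (e :: t').toFinset.filter fun u => G.Adj d u :=
          Finset.mem_filter.2 ⟨by simp, hch.2.2.2.1⟩
        rw [h0] at this
        simp at this
      have h8 : dg G (e :: t').toFinset d ≤ eS G Q (e :: t').toFinset := by
        unfold eS
        exact Finset.single_le_sum (f := fun x => dg G (e :: t').toFinset x)
          (fun _ _ => Nat.zero_le _) (by simp [hQ])
      omega
    simp only [List.length_cons] at hcS h5
    omega

end Pool.Agent.FRC.CH
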