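import Pool.Agent.FRC.CH.Base
import Pool.Agent.FRC.CH.Fam
import Pool.Agent.FRC.CH.Path

set_option linter.all false

/-! Corradi-Hajnal: patterns of a short path and a triangle. -/

namespace Pool.Agent.FRC.CH

open Pool.Agent.LCK Pool.Agent.Helper14.LongCyc

universe u

variable {V : Type u} [DecidableEq V] {G : SimpleGraph V} {U : Finset V} {m : ℕ}
  {F : Finset (Finset V)} {l : List V}

/-- an edge of the rest with a common neighbour in a triangle, and another vertex of the rest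
adjacent to the two others -/
theorem Opt.no_tri (h : Opt G U m F l) {E : Finset V} (hE : E ∈ F) (h3 : E.card = 3)
    {c1 c2 c3 : V} (h1 : c1 ∈ E) (h2 : c2 ∈ E) (h3' : c3 ∈ E) (h12 : c1 ≠ c2) (h13 : c1 ≠ c3)
    (h23 : c2 ≠ c3) {x y r : V} (hx : x ∈ rest U F) (hy : y ∈ rest U F) (hr : r ∈ rest U F)
    (hxy : G.Adj x y) (hrx : r ≠ x) (hry : r ≠ y) :
    ¬ (G.Adj x c1 ∧ G.Adj y c1 ∧ G.Adj r c2 ∧ G.Adj r c3) := by
  rintro ⟨a1, a2, a3, a4⟩
  have hout : ∀ {v c : V}, v ∈ rest U F → c ∈ E → v ≠ c := by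
    intro v c hv hc e
    exact (mem_rest.1 hv).2 E hE (e ▸ hc)
  have hadj := CycS.adj (h.fam.cyc E hE) h3
  refine h.no_two hE (D := {x, y, c1}) (E := {r, c2, c3}) (CycS.of_adj3 hxy a2 a1.symm)
    (CycS.of_adj3 a3 (hadj c2 h2 c3 h3' h23) a4.symm) ?_ ?_ ?_
  · rw [Finset.disjoint_left]
    intro v hv hv'
    simp only [Finset.mem_insert, Finset.mem_singleton] at hv hv'
    rcases hv with rfl | rfl | rfl <;> rcases hv' with e | e | e
    · exact hrx e.symm
    · exact hout hx h2 e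
    · exact hout hx h3' e
    · exact hry e.symm
    · exact hout hy h2 e
    · exact hout hy h3' e
    · exact hout hr h1 e.symm
    · exact h12 e
    · exact h13 e
  · intro v hv
    simp only [Finset.mem_insert, Finset.mem_singleton] at hv
    rcases hv with rfl | rfl | rfl
    · exact Finset.mem_union_right _ hx
    · exact Finset.mem_union_right _ hy
    · exact Finset.mem_union_left _ h1
  · intro v hv
    simp only [Finset.mem_insert, Finset.mem_singleton] at hv
    rcases hv with rfl | rfl | rfl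
    · exact Finset.mem_union_right _ hr
    · exact Finset.mem_union_left _ h2
    · exact Finset.mem_union_left _ h3'

open Classical in
theorem dg_bool {c1 c2 c3 : V} (h12 : c1 ≠ c2) (h13 : c1 ≠ c3) (h23 : c2 ≠ c3) (x : V) :
    dg G {c1, c2, c3} x = (decide (G.Adj x c1)).toNat + (decide (G.Adj x c2)).toNat +
      (decide (G.Adj x c3)).toNat := by
  unfold dg
  rw [Finset.card_filter, Finset.sum_insert (by simp [h12, h13]), Finset.sum_pair h23]
  have : ∀ p : Prop, (if p then 1 else 0 : ℕ) = (decide p).toNat := by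
    intro p
    by_cases hp : p <;> simp [hp]
  simp only [this]
  ring

theorem key9 : ∀ u1 u2 u3 w1 w2 w3 z1 z2 z3 : Bool,
    (u1 && w1 && z2 && z3) = false → (u2 && w2 && z1 && z3) = false →
    (u3 && w3 && z1 && z2) = false → (w1 && z1 && u2 && u3) = false →
    (w2 && z2 && u1 && u3) = false → (w3 && z3 && u1 && u2) = false →
    (0 < w1.toNat + w2.toNat + w3.toNat →
      (u1.toNat + u2.toNat + u3.toNat) + (z1.toNat + z2.toNat + z3.toNat) ≤ 4) ∧
    ((u1.toNat + u2.toNat + u3.toNat) + (w1.toNat + w2.toNat + w3.toNat) +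
      (z1.toNat + z2.toNat + z3.toNat) ≤ 6 ∨
      (u1.toNat + u2.toNat + u3.toNat = 2 ∧ w1.toNat + w2.toNat + w3.toNat = 3 ∧
        z1.toNat + z2.toNat + z3.toNat = 2)) := by
  decide +kernel

theorem key12 : ∀ a1 a2 a3 b1 b2 b3 c1 c2 c3 d1 d2 d3 : Bool,
    (a1 && b1 && (c2 && c3 || d2 && d3)) = false →
    (a2 && b2 && (c1 && c3 || d1 && d3)) = false →
    (a3 && b3 && (c1 && c2 || d1 && d2)) = false →
    (b1 && c1 && (a2 && a3 || d2 && d3)) = false →
    (b2 && c2 && (a1 && a3 || d1 && d3)) = false →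
    (b3 && c3 && (a1 && a2 || d1 && d2)) = false →
    (c1 && d1 && (a2 && a3 || b2 && b3)) = false →
    (c2 && d2 && (a1 && a3 || b1 && b3)) = false →
    (c3 && d3 && (a1 && a2 || b1 && b2)) = false →
    (a1.toNat + a2.toNat + a3.toNat) + (b1.toNat + b2.toNat + b3.toNat) +
      (c1.toNat + c2.toNat + c3.toNat) + (d1.toNat + d2.toNat + d3.toNat) ≤ 8 := by
  decide +kernel

theorem Opt.path_bound (h : Opt G U m F l) {u w z : V} (hu : u ∈ rest U F) (hw : w ∈ rest U F)
    (hz : z ∈ rest U F) (huw : G.Adj u w) (hwz : G.Adj w z) (huz : u ≠ z) {E : Finset V}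
    (hE : E ∈ F) (h3 : E.card = 3) :
    (0 < dg G E w → dg G E u + dg G E z ≤ 4) ∧
      (dg G E u + dg G E w + dg G E z ≤ 6 ∨
        (dg G E u = 2 ∧ dg G E w = 3 ∧ dg G E z = 2)) := by
  classical
  obtain ⟨c1, c2, c3, h12, h13, h23, rfl⟩ := Finset.card_eq_three.1 h3
  have m1 : c1 ∈ ({c1, c2, c3} : Finset V) := by simp
  have m2 : c2 ∈ ({c1, c2, c3} : Finset V) := by simp
  have m3 : c3 ∈ ({c1, c2, c3} : Finset V) := by simp
  have bf : ∀ {p q r s : Prop}, ¬ (p ∧ q ∧ r ∧ s) →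
      (decide p && decide q && decide r && decide s) = false := by
    intro p q r s hn
    by_contra hcon
    rw [Bool.not_eq_false] at hcon
    simp only [Bool.and_eq_true, decide_eq_true_eq] at hcon
    exact hn ⟨hcon.1.1.1, hcon.1.1.2, hcon.1.2, hcon.2⟩
  rw [dg_bool h12 h13 h23, dg_bool h12 h13 h23, dg_bool h12 h13 h23]
  refine key9 _ _ _ _ _ _ _ _ _ ?_ ?_ ?_ ?_ ?_ ?_ <;> apply bf
  · exact h.no_tri hE h3 m1 m2 m3 h12 h13 h23 hu hw hz huw huz.symm hwz.ne'
  · exact h.no_tri hE h3 m2 m1 m3 h12.symm h23 h13 hu hw hz huw huz.symm hwz.ne'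
  · exact h.no_tri hE h3 m3 m1 m2 h13.symm h23.symm h12 hu hw hz huw huz.symm hwz.ne'
  · exact h.no_tri hE h3 m1 m2 m3 h12 h13 h23 hw hz hu hwz huw.ne huz
  · exact h.no_tri hE h3 m2 m1 m3 h12.symm h23 h13 hw hz hu hwz huw.ne huz
  · exact h.no_tri hE h3 m3 m1 m2 h13.symm h23.symm h12 hw hz hu hwz huw.ne huz

theorem Opt.four_bound (h : Opt G U m F l) {a b c d : V} (ha : a ∈ rest U F)
    (hb : b ∈ rest U F) (hc : c ∈ rest U F) (hd : d ∈ rest U F) (hab : G.Adj a b)
    (hbc : G.Adj b c) (hcd : G.Adj c d) (hac : a ≠ c) (had : a ≠ d) (hbd : b ≠ d)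
    {E : Finset V} (hE : E ∈ F) (h3 : E.card = 3) :
    dg G E a + dg G E b + dg G E c + dg G E d ≤ 8 := by
  classical
  obtain ⟨c1, c2, c3, h12, h13, h23, rfl⟩ := Finset.card_eq_three.1 h3
  have m1 : c1 ∈ ({c1, c2, c3} : Finset V) := by simp
  have m2 : c2 ∈ ({c1, c2, c3} : Finset V) := by simp
  have m3 : c3 ∈ ({c1, c2, c3} : Finset V) := by simp
  have bf : ∀ {p q r s r' s' : Prop}, ¬ (p ∧ q ∧ r ∧ s) → ¬ (p ∧ q ∧ r' ∧ s') →
      (decide p && decide q && (decide r && decide s || decide r' && decide s')) = false := by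
    intro p q r s r' s' hn hn'
    by_contra hcon
    rw [Bool.not_eq_false] at hcon
    simp only [Bool.and_eq_true, Bool.or_eq_true, decide_eq_true_eq] at hcon
    obtain ⟨⟨g1, g2⟩, g3 | g3⟩ := hcon
    · exact hn ⟨g1, g2, g3.1, g3.2⟩
    · exact hn' ⟨g1, g2, g3.1, g3.2⟩
  rw [dg_bool h12 h13 h23, dg_bool h12 h13 h23, dg_bool h12 h13 h23, dg_bool h12 h13 h23]
  have t1 := fun {x y r : V} hx hy hr hxy hrx hry =>
    h.no_tri hE h3 m1 m2 m3 h12 h13 h23 (x := x) (y := y) (r := r) hx hy hr hxy hrx hry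
  have t2 := fun {x y r : V} hx hy hr hxy hrx hry =>
    h.no_tri hE h3 m2 m1 m3 h12.symm h23 h13 (x := x) (y := y) (r := r) hx hy hr hxy hrx hry
  have t3 := fun {x y r : V} hx hy hr hxy hrx hry =>
    h.no_tri hE h3 m3 m1 m2 h13.symm h23.symm h12 (x := x) (y := y) (r := r) hx hy hr hxy hrx hry
  refine key12 _ _ _ _ _ _ _ _ _ _ _ _ ?_ ?_ ?_ ?_ ?_ ?_ ?_ ?_ ?_ <;> apply bf
  · exact t1 ha hb hc hab hac.symm hbc.ne'
  · exact t1 ha hb hd hab had.symm hbd.symm
  · exact t2 ha hb hc hab hac.symm hbc.ne'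
  · exact t2 ha hb hd hab had.symm hbd.symm
  · exact t3 ha hb hc hab hac.symm hbc.ne'
  · exact t3 ha hb hd hab had.symm hbd.symm
  · exact t1 hb hc ha hbc hab.ne hac
  · exact t1 hb hc hd hbc hbd.symm hcd.ne'
  · exact t2 hb hc ha hbc hab.ne hac
  · exact t2 hb hc hd hbc hbd.symm hcd.ne'
  · exact t3 hb hc ha hbc hab.ne hac
  · exact t3 hb hc hd hbc hbd.symm hcd.ne'
  · exact t1 hc hd ha hcd hac had
  · exact t1 hc hd hb hcd hbc.ne hbd
  · exact t2 hc hd ha hcd hac had
  · exact t2 hc hd hb hcd hbc.ne hbd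
  · exact t3 hc hd ha hcd hac had
  · exact t3 hc hd hb hcd hbc.ne hbd

/-- the rest has at most three vertices -/
theorem Opt.length_le (h : Opt G U m F l) (hdeg : ∀ v ∈ U, 2 * (m + 1) ≤ dg G U v) :
    l.length ≤ 3 := by
  by_contra hcon
  push Not at hcon
  have hr := h.rest_eq hdeg
  match l, h, hr, hcon with
  | a :: b :: c :: d :: t, h, hr, _ =>
    have h4 := four_deg h.path hr h.acyc
    obtain ⟨_, hnd, hch, hmem⟩ := h.path
    have ha : a ∈ rest U F := hmem a (by simp)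
    have hb : b ∈ rest U F := hmem b (by simp)
    have hc : c ∈ rest U F := hmem c (by simp)
    have hd : d ∈ rest U F := hmem d (by simp)
    simp only [List.nodup_cons, List.mem_cons, not_or] at hnd
    simp only [List.isChain_cons_cons] at hch
    obtain ⟨⟨hab', hac, had, _⟩, ⟨hbc', hbd, _⟩, ⟨hcd', _⟩, _⟩ := hnd
    obtain ⟨hab, hbc, hcd, _⟩ := hch
    have hE : ∀ E ∈ F, dg G E a + dg G E b + dg G E c + dg G E d ≤ 8 := by
      intro E hE
      rcases Nat.lt_or_ge E.card 4 with h3 | h3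
      · have := CycS.three_le (h.fam.cyc E hE)
        exact h.four_bound ha hb hc hd hab hbc hcd hac had hbd hE (by omega)
      · have e1 := h.dg_out hE h3 ha
        have e2 := h.dg_out hE h3 hb
        have e3 := h.dg_out hE h3 hc
        have e4 := h.dg_out hE h3 hd
        omega
    have hs : ∑ E ∈ F, (dg G E a + dg G E b + dg G E c + dg G E d) ≤ m * 8 := by
      rw [← h.card, ← smul_eq_mul, ← Finset.sum_const]
      exact Finset.sum_le_sum hE
    simp only [Finset.sum_add_distrib] at hs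
    have s1 := h.fam.dg_sum a
    have s2 := h.fam.dg_sum b
    have s3 := h.fam.dg_sum c
    have s4 := h.fam.dg_sum d
    have g1 := hdeg a (rest_subset U F ha)
    have g2 := hdeg b (rest_subset U F hb)
    have g3 := hdeg c (rest_subset U F hc)
    have g4 := hdeg d (rest_subset U F hd)
    omega
  | [], _, _, hl => simp at hl
  | [_], _, _, hl => simp at hl
  | [_, _], _, _, hl => simp at hl
  | [_, _, _], _, _, hl => simp at hl

end Pool.Agent.FRC.CH
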