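import Pool.Agent.FRC.CH.Pat

set_option linter.all false

namespace Pool.Agent.FRC.CH

open Pool.Agent.LCK Pool.Agent.Helper14.LongCyc

universe u

variable {V : Type u} [DecidableEq V] {G : SimpleGraph V} {U : Finset V} {m : ℕ}
  {F : Finset (Finset V)} {l : List V}

open Classical in
theorem dg_ins {S : Finset V} {w : V} (hw : w ∉ S) (v : V) :
    dg G (insert w S) v = dg G S v + if G.Adj v w then 1 else 0 := by
  unfold dg
  rw [Finset.filter_insert]
  split_ifs with h
  · rw [Finset.card_insert_of_notMem (by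
      intro h1; exact hw (Finset.mem_filter.1 h1).1)]
  · rfl

theorem dg_empty (v : V) : dg G ∅ v = 0 := by
  unfold dg; simp

open Classical in
theorem dg_tri {p q r : V} (h1 : p ≠ q) (h2 : p ≠ r) (h3 : q ≠ r) (v : V) :
    dg G {p, q, r} v = (if G.Adj v p then 1 else 0) + (if G.Adj v q then 1 else 0) +
      if G.Adj v r then 1 else 0 := by
  rw [dg_ins (by simp [h1, h2]), dg_ins (by simp [h3]), ← insert_empty_eq (β := Finset V) r,
    dg_ins (by simp), dg_empty]
  omega

/-- the constraints of a path and a triangle -/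
def PB (u w z : ℕ) : Prop := (0 < w → u + z ≤ 4) ∧ (u + w + z ≤ 6 ∨ (u = 2 ∧ w = 3 ∧ z = 2))

theorem PB_full {a x b c : ℕ} (ha : a ≤ 3) (hx : x ≤ 3) (hb : b ≤ 3) (hc : c ≤ 3)
    (h1 : PB a x b) (h2 : PB x b c) (h3 : PB x a c) : 2 * x + a + b + 2 * c ≤ 12 := by
  obtain ⟨h1, h1'⟩ := h1
  obtain ⟨h2, h2'⟩ := h2
  obtain ⟨h3, h3'⟩ := h3
  interval_cases x <;> interval_cases a <;> interval_cases b <;> omega

theorem PB_part {a x b c d : ℕ} (ha : a ≤ 3) (hx : x ≤ 3) (hb : b ≤ 3) (hc : c ≤ 3) (hd : d ≤ 3)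
    (h1 : PB a x b) (h2 : PB x b c) (h3 : PB x a d) : 2 * x + a + b + c + d ≤ 12 := by
  obtain ⟨h1, h1'⟩ := h1
  obtain ⟨h2, h2'⟩ := h2
  obtain ⟨h3, h3'⟩ := h3
  interval_cases x <;> interval_cases a <;> interval_cases b <;> omega

theorem Opt.pb {u w z : V} (h : Opt G U m F [u, w, z]) {E : Finset V} (hE : E ∈ F)
    (h3 : E.card = 3) : PB (dg G E u) (dg G E w) (dg G E z) := by
  obtain ⟨_, h1, h2, h4⟩ := h.path
  simp only [List.nodup_cons, List.mem_cons, List.mem_singleton, List.not_mem_nil, or_false,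
    not_or, not_false_eq_true, List.nodup_nil, and_true] at h1
  simp only [List.isChain_cons_cons, List.isChain_singleton, and_true] at h2
  exact h.path_bound (h4 u (by simp)) (h4 w (by simp)) (h4 z (by simp)) h2.1 h2.2 h1.1.2 hE h3

theorem Opt.rev3 {a x b : V} (h : Opt G U m F [a, x, b]) : Opt G U m F [b, x, a] := by
  obtain ⟨p1, p2, p3, p4⟩ := h.path
  refine ⟨h.fam, h.card, h.min, ⟨by simp, ?_, ?_, ?_⟩, ?_, h.no⟩
  · have := List.nodup_reverse.2 p2
    simpa using this
  · simp only [List.isChain_cons_cons, List.isChain_singleton, and_true] at p3 ⊢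
    exact ⟨p3.2.symm, p3.1.symm⟩
  · intro y hy
    exact p4 y (by simp only [List.mem_cons, List.not_mem_nil, or_false] at hy ⊢; tauto)
  · intro F' l' q1 q2 q3 q4
    simpa using h.long F' l' q1 q2 q3 q4

/-- a swap inside the triangle `C`: `a` takes the place of `c` -/
theorem Opt.swap3 {a x b c : V} (h : Opt G U m F [a, x, b]) (hr : rest U F = {a, x, b})
    {C : Finset V} (hC : C ∈ F) (h3 : C.card = 3) (hc : c ∈ C) (hbc : G.Adj b c)
    (ha : ∀ w ∈ C.erase c, G.Adj a w) :
    ∃ F', Opt G U m F' [x, b, c] ∧ ∀ E ∈ F.erase C, E ∈ F' := by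
  classical
  obtain ⟨p1, p2, p3, p4⟩ := h.path
  simp only [List.nodup_cons, List.mem_cons, List.mem_singleton, List.not_mem_nil, or_false,
    not_or, not_false_eq_true, List.nodup_nil, and_true] at p2
  simp only [List.isChain_cons_cons, List.isChain_singleton, and_true] at p3
  have hdis : Disjoint C (rest U F) := by
    rw [Finset.disjoint_right]
    intro v hv
    exact (mem_rest.1 hv).2 C hC
  have hnot : ∀ v ∈ rest U F, v ∉ C := fun v hv => (mem_rest.1 hv).2 C hC
  have haC : a ∉ C := hnot a (p4 a (by simp))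
  have hbC : b ∉ C := hnot b (p4 b (by simp))
  have hxC : x ∉ C := hnot x (p4 x (by simp))
  have hCadj := (h.fam.cyc C hC).adj h3
  -- the new triangle
  have hcard : (C.erase c).card = 2 := by rw [Finset.card_erase_of_mem hc, h3]
  obtain ⟨s, t, hst, hset⟩ := Finset.card_eq_two.1 hcard
  have hs : s ∈ C.erase c := by rw [hset]; simp
  have ht : t ∈ C.erase c := by rw [hset]; simp
  have hsC := Finset.mem_erase.1 hs
  have htC := Finset.mem_erase.1 ht
  have hD : CycS G (insert a (C.erase c)) := by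
    rw [hset]
    exact CycS.of_adj3 (ha s hs) (hCadj s hsC.2 t htC.2 hst) (ha t ht).symm
  have hDs : insert a (C.erase c) ⊆ C ∪ rest U F := by
    intro v hv
    rcases Finset.mem_insert.1 hv with h1 | h1
    · rw [h1]; exact Finset.mem_union_right _ (p4 a (by simp))
    · exact Finset.mem_union_left _ (Finset.mem_erase.1 h1).2
  have hDc : (insert a (C.erase c)).card = C.card := by
    rw [Finset.card_insert_of_notMem (fun h1 => haC (Finset.mem_erase.1 h1).2), hcard, h3]
  have hmem : ∀ v, v = x ∨ v = b ∨ v = c → v ∈ (C ∪ rest U F) \ insert a (C.erase c) := by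
    intro v hv
    rw [Finset.mem_sdiff, Finset.mem_union, Finset.mem_insert, Finset.mem_erase, not_or]
    rcases hv with hv | hv | hv
    · rw [hv]
      exact ⟨Or.inr (p4 x (by simp)), fun h1 => p2.1.1 h1.symm, fun h1 => hxC h1.2⟩
    · rw [hv]
      exact ⟨Or.inr (p4 b (by simp)), fun h1 => p2.1.2 h1.symm, fun h1 => hbC h1.2⟩
    · rw [hv]
      exact ⟨Or.inl hc, fun h1 => haC (h1 ▸ hc), fun h1 => h1.1 rfl⟩
  have hxc : x ≠ c := fun h1 => hxC (h1 ▸ hc)
  have hbc' : b ≠ c := fun h1 => hbC (h1 ▸ hc)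
  refine ⟨_, h.swap hC hD hDs hDc (l' := [x, b, c]) ⟨by simp, ?_, ?_, ?_⟩ (by simp), ?_⟩
  · simp only [List.nodup_cons, List.mem_cons, List.mem_singleton, List.not_mem_nil, or_false,
      not_or, not_false_eq_true, List.nodup_nil, and_true]
    exact ⟨⟨p2.2, hxc⟩, hbc'⟩
  · simp only [List.isChain_cons_cons, List.isChain_singleton, and_true]
    exact ⟨p3.2, hbc⟩
  · intro v hv
    simp only [List.mem_cons, List.not_mem_nil, or_false] at hv
    exact hmem v hv
  · intro E hE
    exact Finset.mem_insert_of_mem hE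

theorem Opt.le2 {u w z : V} (h : Opt G U m F [u, w, z]) {E : Finset V} (hE : E ∈ F)
    (h4 : 4 ≤ E.card) : dg G E u ≤ 2 ∧ dg G E w ≤ 2 ∧ dg G E z ≤ 2 := by
  obtain ⟨_, _, _, p4⟩ := h.path
  exact ⟨h.dg_out hE h4 (p4 u (by simp)), h.dg_out hE h4 (p4 w (by simp)),
    h.dg_out hE h4 (p4 z (by simp))⟩

theorem FamC.dg_sum' (hF : FamC G U F) {C : Finset V} (hC : C ∈ F) (x : V) :
    dg G U x = dg G (rest U F) x + dg G C x + ∑ E ∈ F.erase C, dg G E x := by
  rw [hF.dg_sum x, ← Finset.add_sum_erase F _ hC]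
  omega

theorem core {a x b p q r : V} (h : Opt G U m F [a, x, b])
    (hdeg : ∀ v ∈ U, 2 * (m + 1) ≤ dg G U v) (hr : rest U F = {a, x, b})
    {C : Finset V} (hC : C ∈ F) (hCe : C = {p, q, r}) (hpq : p ≠ q) (hpr : p ≠ r) (hqr : q ≠ r)
    (hap : G.Adj a p) (haq : G.Adj a q) (har : G.Adj a r) (hbp : G.Adj b p) (hbq : G.Adj b q)
    (hx0 : dg G C x = 0) : False := by
  classical
  obtain ⟨_, p2, p3, p4⟩ := h.path
  simp only [List.nodup_cons, List.mem_cons, List.mem_singleton, List.not_mem_nil, or_false,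
    not_or, not_false_eq_true, List.nodup_nil, and_true] at p2
  simp only [List.isChain_cons_cons, List.isChain_singleton, and_true] at p3
  obtain ⟨⟨hax, hab⟩, hxb⟩ := p2
  have h3 : C.card = 3 := by rw [hCe]; exact Finset.card_eq_three.2 ⟨p, q, r, hpq, hpr, hqr, rfl⟩
  have hpC : p ∈ C := by rw [hCe]; simp
  have hqC : q ∈ C := by rw [hCe]; simp
  have hrC : r ∈ C := by rw [hCe]; simp
  -- non-adjacencies
  have nab : ¬ G.Adj a b := by
    intro hh
    refine h.acyc {a, x, b} (by rw [hr]) (CycS.of_adj3 p3.1 p3.2 hh.symm)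
  have nx : ∀ w ∈ C, ¬ G.Adj x w := by
    intro w hw hh
    have : 0 < dg G C x := by
      unfold dg
      exact Finset.card_pos.2 ⟨w, Finset.mem_filter.2 ⟨hw, hh⟩⟩
    omega
  -- inner degrees
  have dx : dg G {a, x, b} x ≤ 2 := by
    rw [dg_tri hax hab hxb, if_neg (G.loopless.irrefl x)]
    split_ifs <;> omega
  have da : dg G {a, x, b} a ≤ 1 := by
    rw [dg_tri hax hab hxb, if_neg (G.loopless.irrefl a), if_neg nab]
    split_ifs <;> omega
  have db : dg G {a, x, b} b ≤ 1 := by
    rw [dg_tri hax hab hxb, if_neg (G.loopless.irrefl b), if_neg (fun hh => nab hh.symm)]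
    split_ifs <;> omega
  have dC : ∀ w ∈ C, dg G {a, x, b} w ≤ 2 := by
    intro w hw
    rw [dg_tri hax hab hxb, if_neg (show ¬ G.Adj w x from fun hh => nx w hw hh.symm)]
    split_ifs <;> omega
  have dCC := h.dg_in hC
  have dCle : ∀ v, dg G C v ≤ 3 := fun v => by
    have := dg_le (G := G) C v
    omega
  -- degree sums
  have key : ∀ v ∈ U, 2 * (m + 1) ≤ dg G {a, x, b} v + dg G C v + ∑ E ∈ F.erase C, dg G E v := by
    intro v hv
    have h1 := hdeg v hv
    rw [h.fam.dg_sum' hC v, hr] at h1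
    exact h1
  have hU : ∀ v ∈ rest U F, v ∈ U := fun v hv => rest_subset U F hv
  have kx := key x (hU x (p4 x (by simp)))
  have ka := key a (hU a (p4 a (by simp)))
  have kb := key b (hU b (p4 b (by simp)))
  have kp := key p (h.fam.sub C hC hpC)
  have kq := key q (h.fam.sub C hC hqC)
  have kr := key r (h.fam.sub C hC hrC)
  rw [hx0] at kx
  rw [dCC p hpC] at kp
  rw [dCC q hqC] at kq
  rw [dCC r hrC] at kr
  have ca := dCle a
  have cb := dCle b
  have cp := dC p hpC
  have cq := dC q hqC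
  have cr := dC r hrC
  have hm : (F.erase C).card + 1 = m := by
    rw [Finset.card_erase_of_mem hC, ← h.card]
    have := Finset.card_pos.2 ⟨C, hC⟩
    omega
  have hall : ∀ w ∈ C, G.Adj a w := by
    intro w hw
    rw [hCe] at hw
    simp only [Finset.mem_insert, Finset.mem_singleton] at hw
    rcases hw with rfl | rfl | rfl <;> assumption
  -- the swapped families
  obtain ⟨Fp, hFp, hFp'⟩ := h.swap3 hr hC h3 hpC hbp fun w hw => hall w (Finset.mem_erase.1 hw).2
  obtain ⟨Fq, hFq, hFq'⟩ := h.swap3 hr hC h3 hqC hbq fun w hw => hall w (Finset.mem_erase.1 hw).2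
  have hr' : rest U F = {b, x, a} := by
    rw [hr]
    ext v
    simp only [Finset.mem_insert, Finset.mem_singleton]
    tauto
  obtain ⟨Fr, hFr, hFr'⟩ := h.rev3.swap3 hr' hC h3 hrC har (by
    intro w hw
    obtain ⟨h1, h2⟩ := Finset.mem_erase.1 hw
    rw [hCe] at h2
    simp only [Finset.mem_insert, Finset.mem_singleton] at h2
    rcases h2 with rfl | rfl | rfl
    · exact hbp
    · exact hbq
    · exact absurd rfl h1)
  have hsz : ∀ E ∈ F.erase C, E.card = 3 ∨ 4 ≤ E.card := by
    intro E hE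
    have := (h.fam.cyc E (Finset.mem_erase.1 hE).2).three_le
    omega
  have le3 : ∀ {E : Finset V}, E.card = 3 → ∀ v, dg G E v ≤ 3 := by
    intro E hE v
    have := dg_le (G := G) E v
    omega
  by_cases hbr : G.Adj b r
  · -- full case
    have hallb : ∀ w ∈ C, G.Adj b w := by
      intro w hw
      rw [hCe] at hw
      simp only [Finset.mem_insert, Finset.mem_singleton] at hw
      rcases hw with rfl | rfl | rfl <;> assumption
    obtain ⟨Fr2, hFr2, hFr2'⟩ := h.swap3 hr hC h3 hrC hbr
      fun w hw => hall w (Finset.mem_erase.1 hw).2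
    obtain ⟨Fp2, hFp2, hFp2'⟩ := h.rev3.swap3 hr' hC h3 hpC hap
      fun w hw => hallb w (Finset.mem_erase.1 hw).2
    obtain ⟨Fq2, hFq2, hFq2'⟩ := h.rev3.swap3 hr' hC h3 hqC haq
      fun w hw => hallb w (Finset.mem_erase.1 hw).2
    have hw : ∀ E ∈ F.erase C, 6 * dg G E x + 3 * dg G E a + 3 * dg G E b + 2 * dg G E p +
        2 * dg G E q + 2 * dg G E r ≤ 36 := by
      intro E hE
      have hEF := (Finset.mem_erase.1 hE).2
      rcases hsz E hE with h3' | h4
      · have l3 := le3 h3'
        have b0 := h.pb hEF h3'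
        have b1 := PB_full (l3 a) (l3 x) (l3 b) (l3 p) b0 (hFp.pb (hFp' E hE) h3')
          (hFp2.pb (hFp2' E hE) h3')
        have b2 := PB_full (l3 a) (l3 x) (l3 b) (l3 q) b0 (hFq.pb (hFq' E hE) h3')
          (hFq2.pb (hFq2' E hE) h3')
        have b3 := PB_full (l3 a) (l3 x) (l3 b) (l3 r) b0 (hFr2.pb (hFr2' E hE) h3')
          (hFr.pb (hFr' E hE) h3')
        omega
      · have e1 := h.le2 hEF h4
        have e2 := hFp.le2 (hFp' E hE) h4
        have e3 := hFq.le2 (hFq' E hE) h4
        have e4 := hFr.le2 (hFr' E hE) h4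
        omega
    have hsum := Finset.sum_le_card_nsmul (F.erase C) _ 36 hw
    simp only [Finset.sum_add_distrib, ← Finset.mul_sum, smul_eq_mul] at hsum
    omega
  · have cb' : dg G C b ≤ 2 := by
      rw [hCe, dg_tri hpq hpr hqr, if_neg hbr]
      split_ifs <;> omega
    have cr' : dg G {a, x, b} r ≤ 1 := by
      rw [dg_tri hax hab hxb, if_neg (show ¬ G.Adj r x from fun hh => nx r hrC hh.symm),
        if_neg (show ¬ G.Adj r b from fun hh => hbr hh.symm)]
      split_ifs <;> omega
    have hw : ∀ E ∈ F.erase C, 4 * dg G E x + 2 * dg G E a + 2 * dg G E b + dg G E p +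
        dg G E q + 2 * dg G E r ≤ 24 := by
      intro E hE
      have hEF := (Finset.mem_erase.1 hE).2
      rcases hsz E hE with h3' | h4
      · have l3 := le3 h3'
        have b0 := h.pb hEF h3'
        have b1 := PB_part (l3 a) (l3 x) (l3 b) (l3 p) (l3 r) b0 (hFp.pb (hFp' E hE) h3')
          (hFr.pb (hFr' E hE) h3')
        have b2 := PB_part (l3 a) (l3 x) (l3 b) (l3 q) (l3 r) b0 (hFq.pb (hFq' E hE) h3')
          (hFr.pb (hFr' E hE) h3')
        omega
      · have e1 := h.le2 hEF h4
        have e2 := hFp.le2 (hFp' E hE) h4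
        have e3 := hFq.le2 (hFq' E hE) h4
        have e4 := hFr.le2 (hFr' E hE) h4
        omega
    have hsum := Finset.sum_le_card_nsmul (F.erase C) _ 24 hw
    simp only [Finset.sum_add_distrib, ← Finset.mul_sum, smul_eq_mul] at hsum
    omega

theorem core2 {a x b : V} (h : Opt G U m F [a, x, b])
    (hdeg : ∀ v ∈ U, 2 * (m + 1) ≤ dg G U v) (hr : rest U F = {a, x, b})
    {C : Finset V} (hC : C ∈ F) (h3 : C.card = 3) (ha : dg G C a = 3) (hb : 2 ≤ dg G C b)
    (hx0 : dg G C x = 0) : False := by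
  classical
  obtain ⟨p, q, r, hpq, hpr, hqr, hCe⟩ := Finset.card_eq_three.1 h3
  have ha' := ha
  have hb' := hb
  rw [hCe, dg_tri hpq hpr hqr] at ha' hb'
  have hap : G.Adj a p := by
    by_contra hh
    rw [if_neg hh] at ha'
    split_ifs at ha' <;> omega
  have haq : G.Adj a q := by
    by_contra hh
    rw [if_neg hh] at ha'
    split_ifs at ha' <;> omega
  have har : G.Adj a r := by
    by_contra hh
    rw [if_neg hh] at ha'
    split_ifs at ha' <;> omega
  by_cases hp : G.Adj b p
  · by_cases hq : G.Adj b q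
    · exact core h hdeg hr hC hCe hpq hpr hqr hap haq har hp hq hx0
    · have hr2 : G.Adj b r := by
        by_contra hh
        rw [if_neg hh, if_neg hq] at hb'
        split_ifs at hb' <;> omega
      refine core h hdeg hr hC (q := r) (r := q) ?_ hpr hpq hqr.symm hap har haq hp hr2 hx0
      rw [hCe]
      ext v
      simp only [Finset.mem_insert, Finset.mem_singleton]
      tauto
  · have hq : G.Adj b q := by
      by_contra hh
      rw [if_neg hh, if_neg hp] at hb'
      split_ifs at hb' <;> omega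
    have hr2 : G.Adj b r := by
      by_contra hh
      rw [if_neg hh, if_neg hp] at hb'
      split_ifs at hb' <;> omega
    refine core h hdeg hr hC (p := q) (q := r) (r := p) ?_ hqr hpq.symm hpr.symm haq har hap
      hq hr2 hx0
    rw [hCe]
    ext v
    simp only [Finset.mem_insert, Finset.mem_singleton]
    tauto

theorem Opt.not_three {a x b : V} (h : Opt G U m F [a, x, b])
    (hdeg : ∀ v ∈ U, 2 * (m + 1) ≤ dg G U v) (hr : rest U F = {a, x, b}) : False := by
  classical
  obtain ⟨_, p2, p3, p4⟩ := h.path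
  simp only [List.nodup_cons, List.mem_cons, List.mem_singleton, List.not_mem_nil, or_false,
    not_or, not_false_eq_true, List.nodup_nil, and_true] at p2
  simp only [List.isChain_cons_cons, List.isChain_singleton, and_true] at p3
  obtain ⟨⟨hax, hab⟩, hxb⟩ := p2
  have nab : ¬ G.Adj a b := by
    intro hh
    refine h.acyc {a, x, b} (by rw [hr]) (CycS.of_adj3 p3.1 p3.2 hh.symm)
  have da : dg G {a, x, b} a ≤ 1 := by
    rw [dg_tri hax hab hxb, if_neg (G.loopless.irrefl a), if_neg nab]
    split_ifs <;> omega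
  have db : dg G {a, x, b} b ≤ 1 := by
    rw [dg_tri hax hab hxb, if_neg (G.loopless.irrefl b), if_neg (fun hh => nab hh.symm)]
    split_ifs <;> omega
  have ha := hdeg a (rest_subset U F (p4 a (by simp)))
  have hb := hdeg b (rest_subset U F (p4 b (by simp)))
  rw [h.fam.dg_sum, hr] at ha hb
  have hex : ∃ C ∈ F, 5 ≤ dg G C a + dg G C b := by
    by_contra hcon
    push Not at hcon
    have h1 := Finset.sum_le_card_nsmul F (fun C => dg G C a + dg G C b) 4
      fun C hC => Nat.lt_succ_iff.1 (hcon C hC)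
    rw [Finset.sum_add_distrib, smul_eq_mul, h.card] at h1
    omega
  obtain ⟨C, hC, h5⟩ := hex
  have h3 : C.card = 3 := by
    have h1 := (h.fam.cyc C hC).three_le
    by_contra hne
    have h2 := h.le2 hC (by omega)
    omega
  have hpb := (h.pb hC h3).1
  have hx0 : dg G C x = 0 := by
    by_contra hne
    have := hpb (by omega)
    omega
  have la := dg_le (G := G) C a
  have lb := dg_le (G := G) C b
  rw [h3] at la lb
  by_cases h3a : dg G C a = 3
  · exact core2 h hdeg hr hC h3 h3a (by omega) hx0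
  · have hr' : rest U F = {b, x, a} := by
      rw [hr]
      ext v
      simp only [Finset.mem_insert, Finset.mem_singleton]
      tauto
    exact core2 h.rev3 hdeg hr' hC h3 (by omega) (by omega) hx0

end Pool.Agent.FRC.CH
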